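import Mathlib

/-!
# The final asymptotics
-/

set_option autoImplicit false

open Filter Topology

namespace Pool.Agent.H820R3.DG

lemma log_small (d : ℕ) (η : ℝ) (hη : 0 < η) :
    ∀ᶠ n : ℕ in atTop, 1 + Real.log ((n : ℝ) + 1) ≤ η * (n : ℝ) ^ ((1 : ℝ) / (d + 2)) := by
  have hr : (0 : ℝ) < 1 / ((d : ℝ) + 2) := by positivity
  have h1 : ∀ᶠ x : ℝ in atTop, ‖Real.log x‖ ≤ (η / 4) * ‖x ^ ((1 : ℝ) / (d + 2))‖ :=
    (isLittleO_log_rpow_atTop hr).def (by positivity)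
  have h2 : ∀ᶠ x : ℝ in atTop, 4 / η ≤ x ^ ((1 : ℝ) / (d + 2)) :=
    (tendsto_rpow_atTop hr).eventually_ge_atTop _
  have h3 := h1.and (h2.and (eventually_ge_atTop (1 : ℝ)))
  have h4 := tendsto_natCast_atTop_atTop.eventually h3
  filter_upwards [h4] with n hn
  obtain ⟨hn1, hn2, hn3⟩ := hn
  have hs : 0 ≤ (n : ℝ) ^ ((1 : ℝ) / (d + 2)) := by positivity
  rw [Real.norm_eq_abs, Real.norm_eq_abs, abs_of_nonneg (Real.log_nonneg hn3),
    abs_of_nonneg hs] at hn1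
  rw [div_le_iff₀ hη] at hn2
  have h5 : Real.log ((n : ℝ) + 1) ≤ Real.log n + 1 := by
    have h6 : (n : ℝ) + 1 ≤ n * Real.exp 1 := by
      have := Real.add_one_le_exp (1 : ℝ)
      nlinarith
    calc Real.log ((n : ℝ) + 1) ≤ Real.log (n * Real.exp 1) :=
          Real.log_le_log (by linarith) h6
      _ = Real.log n + 1 := by
        rw [Real.log_mul (by linarith) (Real.exp_pos 1).ne', Real.log_exp]
  nlinarith

/-- final asymptotics -/
theorem asym (d : ℕ) (Kf : ℕ → ℝ) (hK1 : ∀ n, 1 ≤ Kf n) (κ : ℝ)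
    (h : ∀ δ : ℝ, 0 < δ → ∃ C : ℝ, 0 ≤ C ∧ ∀ n : ℕ, κ * n - δ * n -
      C * (1 + Real.log ((n : ℝ) + 1)) * Kf n ^ (d + 1) ≤ Kf n ^ (d + 2)) (ε : ℝ) (hε : 0 < ε) :
    ∃ n0 : ℕ, ∀ n : ℕ, n0 ≤ n → (κ - ε) * n ≤ (Kf n - 1) ^ (d + 2) := by
  obtain ⟨C, hC, hCn⟩ := h (ε / 4) (by positivity)
  set κ' : ℝ := max κ 1 with hκ'
  have hκ'1 : 1 ≤ κ' := le_max_right _ _
  have hκκ' : κ ≤ κ' ^ (d + 2) :=
    (le_max_left κ 1).trans (le_self_pow₀ hκ'1 (by omega))
  set A : ℝ := (C + (d + 2)) * (κ' + 1) ^ (d + 1) with hA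
  have hA0 : 0 < A := by positivity
  obtain ⟨n1, hn1⟩ := (log_small d (ε / (4 * A)) (by positivity)).exists_forall_of_atTop
  refine ⟨max n1 1, fun n hn => ?_⟩
  have h1 := hn1 n ((le_max_left _ _).trans hn)
  have hn1' : (1 : ℝ) ≤ n := by exact_mod_cast (le_max_right n1 1).trans hn
  have hn0 : (0 : ℝ) ≤ n := by linarith
  set s : ℝ := (n : ℝ) ^ ((1 : ℝ) / (d + 2)) with hs
  have hs1 : 1 ≤ s := Real.one_le_rpow hn1' (by positivity)
  have hsn : s ^ (d + 2) = n := by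
    rw [hs, ← Real.rpow_natCast, ← Real.rpow_mul hn0]
    push_cast
    rw [one_div, inv_mul_cancel₀ (by positivity), Real.rpow_one]
  set t : ℝ := Kf n - 1 with ht
  have ht0 : 0 ≤ t := by have := hK1 n; linarith
  by_contra hcon
  push Not at hcon
  have h2 : t ^ (d + 2) ≤ (κ' * s) ^ (d + 2) := by
    rw [mul_pow, hsn]
    have h3 : κ * n ≤ κ' ^ (d + 2) * n := mul_le_mul_of_nonneg_right hκκ' hn0
    nlinarith
  have h3 : t ≤ κ' * s := le_of_pow_le_pow_left₀ (by omega) (by positivity) h2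
  have hKt : Kf n = t + 1 := by rw [ht]; ring
  have h4 : Kf n ≤ (κ' + 1) * s := by rw [hKt]; nlinarith
  have hK0 : 0 ≤ Kf n := by have := hK1 n; linarith
  have h5 : Kf n ^ (d + 1) ≤ (κ' + 1) ^ (d + 1) * s ^ (d + 1) := by
    rw [← mul_pow]; exact pow_le_pow_left₀ hK0 h4 _
  -- the difference of powers
  have h6 : Kf n ^ (d + 2) ≤ t ^ (d + 2) + (d + 2) * Kf n ^ (d + 1) := by
    have key : ∀ m : ℕ, (t + 1) ^ (m + 1) ≤ t ^ (m + 1) + (m + 1) * (t + 1) ^ m := by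
      intro m
      induction m with
      | zero => simp
      | succ m ih =>
        have e1 : t ^ (m + 1) ≤ (t + 1) ^ (m + 1) := pow_le_pow_left₀ ht0 (by linarith) _
        have e2 : (t + 1) ^ (m + 1 + 1) = (t + 1) * (t + 1) ^ (m + 1) := by ring
        have e3 := mul_le_mul_of_nonneg_left ih (by linarith : (0 : ℝ) ≤ t + 1)
        rw [e2]
        refine e3.trans ?_
        push_cast
        have e4 : (t + 1) * (t ^ (m + 1) + ((m : ℝ) + 1) * (t + 1) ^ m) =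
            t ^ (m + 1 + 1) + t ^ (m + 1) + ((m : ℝ) + 1) * (t + 1) ^ (m + 1) := by ring
        rw [e4]
        nlinarith
    have := key (d + 1)
    rw [← hKt] at this
    push_cast at this
    have e5 : ((d : ℝ) + 1 + 1) = d + 2 := by ring
    rw [e5] at this
    exact this
  have h7 := hCn n
  have hlog : 0 ≤ Real.log ((n : ℝ) + 1) := Real.log_nonneg (by linarith)
  have hKp : 0 ≤ Kf n ^ (d + 1) := by positivity
  have h8 : C * (1 + Real.log ((n : ℝ) + 1)) * Kf n ^ (d + 1) + (d + 2) * Kf n ^ (d + 1) ≤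
      (1 + Real.log ((n : ℝ) + 1)) * (A * s ^ (d + 1)) := by
    have e1 : (d + 2 : ℝ) * Kf n ^ (d + 1) ≤
        (d + 2) * (1 + Real.log ((n : ℝ) + 1)) * Kf n ^ (d + 1) := by
      apply mul_le_mul_of_nonneg_right _ hKp
      have : (0 : ℝ) ≤ (d : ℝ) + 2 := by positivity
      nlinarith
    calc C * (1 + Real.log ((n : ℝ) + 1)) * Kf n ^ (d + 1) + (d + 2) * Kf n ^ (d + 1)
        ≤ C * (1 + Real.log ((n : ℝ) + 1)) * Kf n ^ (d + 1) +
          (d + 2) * (1 + Real.log ((n : ℝ) + 1)) * Kf n ^ (d + 1) := by linarith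
      _ = (1 + Real.log ((n : ℝ) + 1)) * ((C + (d + 2)) * Kf n ^ (d + 1)) := by ring
      _ ≤ (1 + Real.log ((n : ℝ) + 1)) * ((C + (d + 2)) *
          ((κ' + 1) ^ (d + 1) * s ^ (d + 1))) := by
        apply mul_le_mul_of_nonneg_left _ (by linarith)
        exact mul_le_mul_of_nonneg_left h5 (by positivity)
      _ = _ := by rw [hA]; ring
  have h9 : (1 + Real.log ((n : ℝ) + 1)) * (A * s ^ (d + 1)) ≤ ε / 4 * n := by
    calc (1 + Real.log ((n : ℝ) + 1)) * (A * s ^ (d + 1)) ≤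
        (ε / (4 * A) * s) * (A * s ^ (d + 1)) := mul_le_mul_of_nonneg_right h1 (by positivity)
      _ = ε / 4 * s ^ (d + 2) := by field_simp; ring
      _ = _ := by rw [hsn]
  nlinarith

end Pool.Agent.H820R3.DG
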