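import Pool.Agent.H820R3.DG.Basic2

/-!
# Few positions with small tail, general degree
-/

set_option autoImplicit false

open Finset

namespace Pool.Agent.H820R3.DG

open Pool.Agent.H394R2.Ones

/-- counting near the ends of the blocks, with an upper limit `X` -/
theorem count_blocks2 (P Bd : ℕ → Prop) [DecidablePred P] [DecidablePred Bd] (M0 a X : ℕ)
    (δ : ℝ) (hδ : 0 ≤ δ) (hP0 : ∃ k, k < M0 ∧ P k)
    (h : ∀ m j j' : ℕ, M0 ≤ m → j ≤ m → m < j' → j' ≤ X → P j → P j' →
      (∀ k, j < k → k < j' → ¬ P k) →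
      Bd m → m < j + a ∨ (j' : ℝ) ≤ m + a + δ * ((j' : ℝ) - j)) :
    ∀ n j' : ℕ, n ≤ j' → j' ≤ X → P j' → (∀ k, n ≤ k → k < j' → ¬ P k) →
      (((range n).filter (fun m => M0 ≤ m ∧ Bd m)).card : ℝ) ≤
        2 * a * (((range n).filter P).card : ℝ) + 2 * a + δ * j' := by
  intro n
  induction n using Nat.strong_induction_on with
  | _ n ih =>
    intro j' hnj' hX hPj' hz
    rcases Nat.lt_or_ge M0 n with hn | hn
    · obtain ⟨k0, hk0, hPk0⟩ := hP0
      have hne : ((range n).filter P).Nonempty :=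
        ⟨k0, mem_filter.mpr ⟨mem_range.mpr (by omega), hPk0⟩⟩
      set j := ((range n).filter P).max' hne with hj
      have hjm := mem_filter.mp (max'_mem _ hne)
      rw [← hj] at hjm
      have hjn : j < n := mem_range.mp hjm.1
      have hz' : ∀ k, j < k → k < j' → ¬ P k := by
        intro k hk1 hk2 hPk
        rcases Nat.lt_or_ge k n with hkn | hkn
        · have := le_max' ((range n).filter P) k (mem_filter.mpr ⟨mem_range.mpr hkn, hPk⟩)
          rw [← hj] at this
          omega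
        · exact hz k hkn hk2 hPk
      have h1 := ih j hjn j le_rfl (by omega) hjm.2 (fun k hk1 hk2 => by omega)
      have h2 : ((range n).filter (fun m => M0 ≤ m ∧ Bd m)).card ≤
          ((range j).filter (fun m => M0 ≤ m ∧ Bd m)).card +
            ((Ico j n).filter (fun m => M0 ≤ m ∧ Bd m)).card := by
        rw [← card_union_of_disjoint]
        · apply card_le_card
          intro m hm
          obtain ⟨hm1, hm2⟩ := mem_filter.mp hm
          rw [mem_union]
          rcases Nat.lt_or_ge m j with h3 | h3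
          · exact Or.inl (mem_filter.mpr ⟨mem_range.mpr h3, hm2⟩)
          · exact Or.inr (mem_filter.mpr ⟨mem_Ico.mpr ⟨h3, mem_range.mp hm1⟩, hm2⟩)
        · rw [disjoint_left]
          intro m hm1 hm2
          have := mem_range.mp (mem_filter.mp hm1).1
          have := (mem_Ico.mp (mem_filter.mp hm2).1).1
          omega
      have hjj' : (j : ℝ) ≤ j' := by exact_mod_cast (by omega : j ≤ j')
      have h3 : (((Ico j n).filter (fun m => M0 ≤ m ∧ Bd m)).card : ℝ) ≤
          2 * a + δ * ((j' : ℝ) - j) := by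
        set t := ⌊(a : ℝ) + δ * ((j' : ℝ) - j)⌋₊ with ht
        have ht0 : (0 : ℝ) ≤ (a : ℝ) + δ * ((j' : ℝ) - j) :=
          add_nonneg (Nat.cast_nonneg _) (mul_nonneg hδ (by linarith))
        have ht1 : (t : ℝ) ≤ (a : ℝ) + δ * ((j' : ℝ) - j) := Nat.floor_le ht0
        have hsub : (Ico j n).filter (fun m => M0 ≤ m ∧ Bd m) ⊆
            Ico j (j + a) ∪ Ico (j' - t) j' := by
          intro m hm
          obtain ⟨hm1, hm2, hm3⟩ := mem_filter.mp hm
          obtain ⟨hm4, hm5⟩ := mem_Ico.mp hm1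
          rw [mem_union, mem_Ico, mem_Ico]
          rcases h m j j' hm2 hm4 (by omega) hX hjm.2 hPj' hz' hm3 with h4 | h4
          · left; omega
          · right
            have h5 : ((j' - m : ℕ) : ℝ) ≤ (a : ℝ) + δ * ((j' : ℝ) - j) := by
              rw [Nat.cast_sub (by omega)]; linarith
            have h6 : j' - m ≤ t := Nat.le_floor h5
            omega
        have h4 := (card_le_card hsub).trans (card_union_le _ _)
        rw [Nat.card_Ico, Nat.card_Ico] at h4
        have h5 : ((Ico j n).filter (fun m => M0 ≤ m ∧ Bd m)).card ≤ a + t := by omega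
        have h6 : (((Ico j n).filter (fun m => M0 ≤ m ∧ Bd m)).card : ℝ) ≤ a + t := by
          exact_mod_cast h5
        linarith
      have h4 : ((range j).filter P).card + 1 ≤ ((range n).filter P).card := by
        have h5 : insert j ((range j).filter P) ⊆ (range n).filter P := by
          intro k hk
          rw [mem_insert] at hk
          rcases hk with rfl | hk
          · exact mem_filter.mpr ⟨mem_range.mpr hjn, hjm.2⟩
          · have h6 := mem_filter.mp hk
            have h7 := mem_range.mp h6.1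
            exact mem_filter.mpr ⟨mem_range.mpr (by omega), h6.2⟩
        have h6 := card_le_card h5
        rwa [card_insert_of_notMem (by simp)] at h6
      have h4' : (((range j).filter P).card : ℝ) + 1 ≤ ((range n).filter P).card := by
        exact_mod_cast h4
      have h2' : (((range n).filter (fun m => M0 ≤ m ∧ Bd m)).card : ℝ) ≤
          ((range j).filter (fun m => M0 ≤ m ∧ Bd m)).card +
            ((Ico j n).filter (fun m => M0 ≤ m ∧ Bd m)).card := by exact_mod_cast h2
      have ha : (0 : ℝ) ≤ a := Nat.cast_nonneg _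
      have h5 : 2 * (a : ℝ) * (((range j).filter P).card : ℝ) + 2 * a ≤
          2 * a * (((range n).filter P).card : ℝ) := by nlinarith
      linarith
    · have h1 : (range n).filter (fun m => M0 ≤ m ∧ Bd m) = ∅ := by
        apply filter_eq_empty_iff.mpr
        intro m hm
        have := mem_range.mp hm
        omega
      rw [h1, card_empty]
      push_cast
      positivity

section
variable {b : ℕ} {y : ℝ}

lemma TT_zeros (d L : ℕ) : ∀ h : ℕ, (∀ k, L < k → k ≤ L + h → rr (xx b y) d k = 0) →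
    TT b y d (L + h) = (b : ℝ) ^ h * TT b y d L := by
  intro h
  induction h with
  | zero => intro _; simp
  | succ h ih =>
    intro hk
    rw [← add_assoc, TT_succ, ih (fun k h1 h2 => hk k h1 (by omega)),
      hk (L + h + 1) (by omega) (by omega), pow_succ]
    push_cast
    ring

lemma KK_le (hb : 2 ≤ b) (n : ℕ) : KK b y n ≤ b * (n + 1) := by
  unfold KK
  calc ∑ i ∈ range (n + 1), xx b y i ≤ ∑ i ∈ range (n + 1), b := by
        refine sum_le_sum fun i _ => ?_
        unfold xx
        split_ifs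
        · omega
        · unfold x; exact (Nat.mod_lt _ (by omega)).le
    _ = b * (n + 1) := by rw [sum_const, card_range, smul_eq_mul, mul_comm]

/-- bad positions lie near the ends of the gaps of the support of the representation numbers -/
theorem bad_pos2 (hb : 2 ≤ b) (hy0 : 0 < y) (hy1 : y < 1) (halg : IsAlgebraic ℚ y)
    (hirr : Irrational y) (d : ℕ) (c : ℝ) (hc : 0 ≤ c) (δ : ℝ) (hδ : 0 < δ) (hδ1 : δ ≤ 1) :
    ∃ L0 : ℕ, ∀ a' X : ℕ, c * (3 ^ (d + 1) * ((b : ℝ) * X) ^ d) < (b : ℝ) ^ a' →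
      ∀ m j j' : ℕ, j ≤ m → m < j' → j' ≤ X → 1 ≤ rr (xx b y) (d + 1) j →
      (∀ k, j < k → k < j' → rr (xx b y) (d + 1) k = 0) →
      TT b y (d + 2) m ≤ c * TT b y (d + 1) m →
      m < j + L0 ∨ (j' : ℝ) ≤ m + (a' + 2) + δ * ((j' : ℝ) - j) := by
  obtain ⟨L0, hgap⟩ := gap hb hy0 halg hirr δ hδ hδ1
  have hb1 : (1 : ℝ) < b := by exact_mod_cast (by omega : 1 < b)
  have hb0 : (0 : ℝ) < b := by linarith
  refine ⟨L0, ?_⟩
  intro a' X hX m j j' hjm hmj' hj'X hj hz hbad
  rcases Nat.lt_or_ge (m - j) L0 with hL | hL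
  · left; omega
  right
  obtain ⟨k, hk1, hk2, hk3⟩ := hgap (m - j) hL
  obtain ⟨h, rfl⟩ : ∃ h, k = m - j + h + 1 := ⟨k - (m - j) - 1, by omega⟩
  have h1 := ep_large hb hy0 (m - j) h hk3
  have h2 := TT_ge hb hy0 hy1 (d + 1) hjm hj
  -- upper bound for the smaller tail
  have h3 := TT_zeros (b := b) (y := y) (d + 1) m (j' - 1 - m)
    (fun k hk1 hk2 => hz k (by omega) (by omega))
  have e1 : m + (j' - 1 - m) = j' - 1 := by omega
  rw [e1] at h3
  have h4 := TT_upper hb hy0 hy1 d (j' - 1)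
  have h5 : (KK b y (j' - 1) : ℝ) ≤ b * X := by
    have h6 := KK_le (y := y) hb (j' - 1)
    have h7 : KK b y (j' - 1) ≤ b * X := h6.trans (Nat.mul_le_mul_left b (by omega))
    exact_mod_cast h7
  have h6 : (b : ℝ) ^ (j' - 1 - m) * TT b y (d + 1) m ≤ 3 ^ (d + 1) * ((b : ℝ) * X) ^ d := by
    rw [← h3]
    refine h4.trans ?_
    gcongr
  have h7 : (b : ℝ) ^ (j' - 1 - m) < (b : ℝ) ^ (a' + (h + 1)) := by
    have e2 : 1 ≤ (b : ℝ) ^ (h + 1) * (c * TT b y (d + 1) m) := by
      have h8 := mul_le_mul_of_nonneg_left (h2.trans hbad)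
        (by positivity : (0 : ℝ) ≤ (b : ℝ) ^ (h + 1))
      linarith
    have e3 : (b : ℝ) ^ (j' - 1 - m) ≤
        (b : ℝ) ^ (h + 1) * (c * ((b : ℝ) ^ (j' - 1 - m) * TT b y (d + 1) m)) := by
      have h8 := mul_le_mul_of_nonneg_left e2 (by positivity : (0 : ℝ) ≤ (b : ℝ) ^ (j' - 1 - m))
      calc (b : ℝ) ^ (j' - 1 - m) = (b : ℝ) ^ (j' - 1 - m) * 1 := by ring
        _ ≤ _ := h8
        _ = _ := by ring
    calc (b : ℝ) ^ (j' - 1 - m) ≤
        (b : ℝ) ^ (h + 1) * (c * ((b : ℝ) ^ (j' - 1 - m) * TT b y (d + 1) m)) := e3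
      _ ≤ (b : ℝ) ^ (h + 1) * (c * (3 ^ (d + 1) * ((b : ℝ) * X) ^ d)) := by gcongr
      _ < (b : ℝ) ^ (h + 1) * (b : ℝ) ^ a' := by gcongr
      _ = _ := by rw [pow_add (b : ℝ) a']; ring
  have h8 : j' - 1 - m < a' + (h + 1) := (pow_lt_pow_iff_right₀ hb1).mp h7
  have h9 : j' ≤ m + a' + (h + 1) := by omega
  have h9' : (j' : ℝ) ≤ m + a' + (h + 1) := by exact_mod_cast h9
  push_cast at hk2
  have hcast : ((m - j : ℕ) : ℝ) = m - j := by rw [Nat.cast_sub hjm]
  rw [hcast] at hk2
  have hmj'R : (m : ℝ) ≤ j' := by exact_mod_cast hmj'.le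
  have h10 : δ * ((m : ℝ) - j) ≤ δ * ((j' : ℝ) - j) := mul_le_mul_of_nonneg_left (by linarith) hδ.le
  linarith

end

end Pool.Agent.H820R3.DG
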