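import Pool.Agent.H820R3.DG.Defs2

/-!
# Recursions for the tails of powers
-/

set_option autoImplicit false

open Finset

namespace Pool.Agent.H820R3.DG

open Pool.Agent.H394R2.Ones

section
variable {b : ℕ} {y : ℝ}

lemma xx_zero : xx b y 0 = 1 := by simp [xx]

lemma xx_succ (i : ℕ) : xx b y (i + 1) = x b y (i + 1) := by simp [xx]

lemma KK_eq (hy0 : 0 < y) (hy1 : y < 1) (n : ℕ) : KK b y n = K b y n + 1 := by
  unfold KK K
  rw [sum_range_succ', sum_range_succ', x_zero hy0 hy1, xx_zero]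
  simp [xx_succ]

lemma KK_pos (hy0 : 0 < y) (hy1 : y < 1) (n : ℕ) : 1 ≤ KK b y n := by
  rw [KK_eq hy0 hy1]; omega

lemma KK_mono {m n : ℕ} (h : m ≤ n) : KK b y m ≤ KK b y n := by
  unfold KK
  exact sum_le_sum_of_subset (range_mono (by omega))

lemma rr_succ (f : ℕ → ℕ) (d m : ℕ) :
    rr f (d + 1) m = ∑ p ∈ antidiagonal m, f p.1 * rr f d p.2 := rfl

lemma rr_range (f : ℕ → ℕ) (d m : ℕ) :
    rr f (d + 1) m = ∑ i ∈ range (m + 1), f (m - i) * rr f d i := by
  rw [rr_succ, Finset.Nat.sum_antidiagonal_eq_sum_range_succ_mk, ← Finset.sum_range_reflect]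
  refine sum_congr rfl fun i hi => ?_
  have : i ≤ m := by have := mem_range.mp hi; omega
  have e1 : m + 1 - 1 - i = m - i := by omega
  have e2 : m - (m - i) = i := by omega
  simp only [e1, e2]

lemma TT_zero (N : ℕ) : TT b y 0 N = 0 := by
  unfold TT
  rw [sum_range_succ']
  simp [rr]

lemma TT_succ (d N : ℕ) : TT b y d (N + 1) = b * TT b y d N - rr (xx b y) d (N + 1) := by
  unfold TT
  rw [sum_range_succ _ (N + 1), Nat.sub_self, pow_zero, mul_one]
  have h : ∑ m ∈ range (N + 1), (rr (xx b y) d m : ℝ) * (b : ℝ) ^ (N + 1 - m) =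
      b * ∑ m ∈ range (N + 1), (rr (xx b y) d m : ℝ) * (b : ℝ) ^ (N - m) := by
    rw [mul_sum]
    refine sum_congr rfl fun m hm => ?_
    have : m ≤ N := by have := mem_range.mp hm; omega
    rw [Nat.succ_sub this, pow_succ]
    ring
  rw [h, pow_succ]
  ring

lemma TT_rec (hb : 2 ≤ b) (hy0 : 0 < y) (hy1 : y < 1) (d N : ℕ) :
    TT b y (d + 1) N = (1 + y) * TT b y d N +
      ∑ i ∈ range (N + 1), (rr (xx b y) d i : ℝ) * ep b y (N - i) := by
  have hep0 : ep b y 0 = y := by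
    unfold ep; rw [B_zero hy0 hy1]; simp
  induction N with
  | zero =>
    have h1 : rr (xx b y) (d + 1) 0 = rr (xx b y) d 0 := by
      rw [rr_range]; simp [xx_zero]
    unfold TT
    simp only [zero_add, range_one, sum_singleton, Nat.sub_self, pow_zero, mul_one, h1, hep0]
    ring
  | succ N ih =>
    rw [TT_succ, ih, TT_succ, sum_range_succ _ (N + 1), Nat.sub_self, hep0]
    have h1 : ∑ i ∈ range (N + 1), (rr (xx b y) d i : ℝ) * ep b y (N + 1 - i) =
        b * ∑ i ∈ range (N + 1), (rr (xx b y) d i : ℝ) * ep b y (N - i) -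
          ∑ i ∈ range (N + 1), (xx b y (N + 1 - i) : ℝ) * rr (xx b y) d i := by
      rw [mul_sum, ← sum_sub_distrib]
      refine sum_congr rfl fun i hi => ?_
      have : i ≤ N := by have := mem_range.mp hi; omega
      rw [Nat.succ_sub this, ep_succ hb, xx_succ]
      ring
    have h2 : (rr (xx b y) (d + 1) (N + 1) : ℝ) =
        ∑ i ∈ range (N + 1), (xx b y (N + 1 - i) : ℝ) * rr (xx b y) d i +
          rr (xx b y) d (N + 1) := by
      rw [rr_range, sum_range_succ, Nat.sub_self, xx_zero]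
      push_cast
      ring
    rw [h1, h2]
    ring

lemma TT_nonneg (hb : 2 ≤ b) (hy0 : 0 < y) (hy1 : y < 1) (d N : ℕ) : 0 ≤ TT b y d N := by
  induction d with
  | zero => rw [TT_zero]
  | succ d ih =>
    rw [TT_rec hb hy0 hy1]
    have h1 : 0 ≤ ∑ i ∈ range (N + 1), (rr (xx b y) d i : ℝ) * ep b y (N - i) :=
      sum_nonneg fun i _ => mul_nonneg (Nat.cast_nonneg _) (ep_nonneg hy0 _)
    have h2 : 0 ≤ (1 + y) * TT b y d N := mul_nonneg (by linarith) ih
    linarith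

lemma TT_mono (hb : 2 ≤ b) (hy0 : 0 < y) (hy1 : y < 1) (d N : ℕ) :
    TT b y d N ≤ TT b y (d + 1) N := by
  rw [TT_rec hb hy0 hy1]
  have h1 : 0 ≤ ∑ i ∈ range (N + 1), (rr (xx b y) d i : ℝ) * ep b y (N - i) :=
    sum_nonneg fun i _ => mul_nonneg (Nat.cast_nonneg _) (ep_nonneg hy0 _)
  have h2 := TT_nonneg hb hy0 hy1 d N
  nlinarith

lemma TT_ge (hb : 2 ≤ b) (hy0 : 0 < y) (hy1 : y < 1) (d : ℕ) {m j : ℕ} (hj : j ≤ m)
    (hr : 1 ≤ rr (xx b y) d j) : ep b y (m - j) ≤ TT b y (d + 1) m := by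
  rw [TT_rec hb hy0 hy1]
  have h1 : (rr (xx b y) d j : ℝ) * ep b y (m - j) ≤
      ∑ i ∈ range (m + 1), (rr (xx b y) d i : ℝ) * ep b y (m - i) := by
    refine single_le_sum (f := fun i => (rr (xx b y) d i : ℝ) * ep b y (m - i)) ?_
      (mem_range.mpr (by omega))
    intro i _
    exact mul_nonneg (Nat.cast_nonneg _) (ep_nonneg hy0 _)
  have h2 : (1 : ℝ) ≤ rr (xx b y) d j := by exact_mod_cast hr
  have h3 := ep_nonneg (b := b) hy0 (m - j)
  have h4 : 0 ≤ (1 + y) * TT b y d m := mul_nonneg (by linarith) (TT_nonneg hb hy0 hy1 d m)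
  nlinarith

lemma rr_sum (d n : ℕ) : ∑ m ∈ range (n + 1), rr (xx b y) d m ≤ KK b y n ^ d := by
  induction d with
  | zero =>
    rw [sum_range_succ']
    simp [rr]
  | succ d ih =>
    have h1 := pair_sum n (fun i j => xx b y i * rr (xx b y) d j)
    have h2 : ∑ m ∈ range (n + 1), rr (xx b y) (d + 1) m ≤
        ∑ p ∈ range (n + 1) ×ˢ range (n + 1), xx b y p.1 * rr (xx b y) d p.2 := by
      rw [h1]
      simp only [rr_succ]
      exact Nat.le_add_right _ _
    refine h2.trans ?_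
    rw [sum_product]
    simp only [← mul_sum]
    rw [← sum_mul, pow_succ, mul_comm (KK b y n ^ d)]
    exact Nat.mul_le_mul le_rfl ih

lemma rr_supp (d m : ℕ) (h : 1 ≤ rr (xx b y) d m) : 1 ≤ rr (xx b y) (d + 1) m := by
  rw [rr_succ]
  refine h.trans ?_
  have h1 : xx b y (0, m).1 * rr (xx b y) d (0, m).2 ≤
      ∑ p ∈ antidiagonal m, xx b y p.1 * rr (xx b y) d p.2 :=
    single_le_sum (f := fun p : ℕ × ℕ => xx b y p.1 * rr (xx b y) d p.2)
      (fun _ _ => Nat.zero_le _) (by simp)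
  simpa [xx_zero] using h1

lemma rr_supp_one (d m : ℕ) (h : 1 ≤ x b y m) (hm : 1 ≤ m) : 1 ≤ rr (xx b y) (d + 1) m := by
  induction d with
  | zero =>
    rw [rr_range]
    have h1 : xx b y (m - 0) * rr (xx b y) 0 0 ≤
        ∑ i ∈ range (m + 1), xx b y (m - i) * rr (xx b y) 0 i :=
      single_le_sum (f := fun i : ℕ => xx b y (m - i) * rr (xx b y) 0 i)
        (fun _ _ => Nat.zero_le _) (by simp)
    obtain ⟨k, rfl⟩ : ∃ k, m = k + 1 := ⟨m - 1, by omega⟩
    rw [Nat.sub_zero, xx_succ] at h1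
    simp only [rr, if_true, mul_one] at h1
    exact h.trans h1
  | succ d ih => exact rr_supp _ _ ih

lemma rr_zero_pos (d : ℕ) : 1 ≤ rr (xx b y) d 0 := by
  induction d with
  | zero => simp [rr]
  | succ d ih => exact rr_supp _ _ ih

lemma TT_upper (hb : 2 ≤ b) (hy0 : 0 < y) (hy1 : y < 1) (d N : ℕ) :
    TT b y (d + 1) N ≤ 3 ^ (d + 1) * (KK b y N : ℝ) ^ d := by
  have key : ∀ d, TT b y (d + 1) N ≤ 2 * TT b y d N + (KK b y N : ℝ) ^ d := by
    intro d
    rw [TT_rec hb hy0 hy1]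
    have h1 : ∑ i ∈ range (N + 1), (rr (xx b y) d i : ℝ) * ep b y (N - i) ≤
        ∑ i ∈ range (N + 1), (rr (xx b y) d i : ℝ) := by
      refine sum_le_sum fun i _ => ?_
      have h2 := ep_lt (b := b) (y := y) (N - i)
      have h3 : (0 : ℝ) ≤ rr (xx b y) d i := Nat.cast_nonneg _
      nlinarith
    have h4 : (∑ i ∈ range (N + 1), (rr (xx b y) d i : ℝ)) ≤ (KK b y N : ℝ) ^ d := by
      exact_mod_cast rr_sum d N
    have h5 := TT_nonneg hb hy0 hy1 d N
    nlinarith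
  have hK : (1 : ℝ) ≤ KK b y N := by exact_mod_cast KK_pos hy0 hy1 N
  induction d with
  | zero =>
    have := key 0
    rw [TT_zero] at this
    simp only [pow_zero, mul_one] at this ⊢
    norm_num
    linarith
  | succ d ih =>
    have h1 := key (d + 1)
    have h2 : (KK b y N : ℝ) ^ d ≤ (KK b y N : ℝ) ^ (d + 1) :=
      pow_le_pow_right₀ hK (Nat.le_succ d)
    have h3 : (0 : ℝ) < 3 ^ (d + 1) := by positivity
    have h4 : (1 : ℝ) ≤ 3 ^ (d + 1) := one_le_pow₀ (by norm_num)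
    have h5 : (0 : ℝ) ≤ (KK b y N : ℝ) ^ (d + 1) := by positivity
    calc TT b y (d + 1 + 1) N ≤ 2 * TT b y (d + 1) N + (KK b y N : ℝ) ^ (d + 1) := h1
      _ ≤ 2 * (3 ^ (d + 1) * (KK b y N : ℝ) ^ (d + 1)) +
          3 ^ (d + 1) * (KK b y N : ℝ) ^ (d + 1) := by nlinarith
      _ = _ := by rw [pow_succ (3 : ℝ) (d + 1)]; ring

lemma TT_sum (hb : 2 ≤ b) (hy0 : 0 < y) (hy1 : y < 1) (d n : ℕ) :
    ((b : ℝ) - 1) * ∑ N ∈ range n, TT b y d N ≤ TT b y d n + (KK b y n : ℝ) ^ d := by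
  have key : ((b : ℝ) - 1) * ∑ N ∈ range n, TT b y d N + TT b y d 0 + rr (xx b y) d 0 =
      TT b y d n + ∑ m ∈ range (n + 1), (rr (xx b y) d m : ℝ) := by
    induction n with
    | zero => simp
    | succ n ih =>
      rw [sum_range_succ, sum_range_succ _ (n + 1), TT_succ]
      linarith
  have h1 : (∑ i ∈ range (n + 1), (rr (xx b y) d i : ℝ)) ≤ (KK b y n : ℝ) ^ d := by
    exact_mod_cast rr_sum d n
  have h2 := TT_nonneg hb hy0 hy1 d 0
  have h3 : (0 : ℝ) ≤ rr (xx b y) d 0 := Nat.cast_nonneg _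
  linarith

end

theorem basicStmt : BasicStmt := by
  intro b y hb hy0 hy1 _
  exact ⟨KK_eq hy0 hy1, TT_zero, TT_succ, TT_nonneg hb hy0 hy1, TT_mono hb hy0 hy1,
    TT_upper hb hy0 hy1, rr_sum, rr_supp, TT_sum hb hy0 hy1⟩

end Pool.Agent.H820R3.DG
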