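import Pool.Agent.H820R3.DG.Gap

/-!
# The number of positions with small tail of the square
-/

set_option autoImplicit false
set_option linter.unusedSectionVars false

open Finset

namespace Pool.Agent.H820R3.DG

open Pool.Agent.H394R2.Ones

/-- counting near the ends of the blocks -/
theorem count_blocks (P Bd : ℕ → Prop) [DecidablePred P] [DecidablePred Bd] (M0 a : ℕ) (δ : ℝ) (hδ : 0 ≤ δ)
    (hP0 : ∃ k, k < M0 ∧ P k)
    (h : ∀ m j j' : ℕ, M0 ≤ m → j ≤ m → m < j' → P j → P j' → (∀ k, j < k → k < j' → ¬ P k) →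
      Bd m → m < j + a ∨ (j' : ℝ) ≤ m + a + δ * ((j' : ℝ) - j)) :
    ∀ n j' : ℕ, n ≤ j' → P j' → (∀ k, n ≤ k → k < j' → ¬ P k) →
      (((range n).filter (fun m => M0 ≤ m ∧ Bd m)).card : ℝ) ≤
        2 * a * (((range n).filter P).card : ℝ) + 2 * a + δ * j' := by
  intro n
  induction n using Nat.strong_induction_on with
  | _ n ih =>
    intro j' hnj' hPj' hz
    rcases Nat.lt_or_ge M0 n with hn | hn
    · -- the last point of P below n
      obtain ⟨k0, hk0, hPk0⟩ := hP0
      have hne : ((range n).filter P).Nonempty :=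
        ⟨k0, mem_filter.mpr ⟨mem_range.mpr (by omega), hPk0⟩⟩
      set j := ((range n).filter P).max' hne with hj
      have hjm := mem_filter.mp (max'_mem _ hne)
      rw [← hj] at hjm
      have hjn : j < n := mem_range.mp hjm.1
      have hz' : ∀ k, j < k → k < j' → ¬ P k := by
        intro k hk1 hk2 hPk
        rcases Nat.lt_or_ge k n with hkn | hkn
        · have := le_max' ((range n).filter P) k (mem_filter.mpr ⟨mem_range.mpr hkn, hPk⟩)
          rw [← hj] at this
          omega
        · exact hz k hkn hk2 hPk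
      have h1 := ih j hjn j le_rfl hjm.2 (fun k hk1 hk2 => by omega)
      have h2 : ((range n).filter (fun m => M0 ≤ m ∧ Bd m)).card ≤
          ((range j).filter (fun m => M0 ≤ m ∧ Bd m)).card +
            ((Ico j n).filter (fun m => M0 ≤ m ∧ Bd m)).card := by
        rw [← card_union_of_disjoint]
        · apply card_le_card
          intro m hm
          obtain ⟨hm1, hm2⟩ := mem_filter.mp hm
          rw [mem_union]
          rcases Nat.lt_or_ge m j with h3 | h3
          · exact Or.inl (mem_filter.mpr ⟨mem_range.mpr h3, hm2⟩)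
          · exact Or.inr (mem_filter.mpr ⟨mem_Ico.mpr ⟨h3, mem_range.mp hm1⟩, hm2⟩)
        · rw [disjoint_left]
          intro m hm1 hm2
          have := mem_range.mp (mem_filter.mp hm1).1
          have := (mem_Ico.mp (mem_filter.mp hm2).1).1
          omega
      have hjj' : (j : ℝ) ≤ j' := by exact_mod_cast (by omega : j ≤ j')
      have h3 : (((Ico j n).filter (fun m => M0 ≤ m ∧ Bd m)).card : ℝ) ≤
          2 * a + δ * ((j' : ℝ) - j) := by
        set t := ⌊(a : ℝ) + δ * ((j' : ℝ) - j)⌋₊ with ht
        have ht0 : (0 : ℝ) ≤ (a : ℝ) + δ * ((j' : ℝ) - j) :=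
          add_nonneg (Nat.cast_nonneg _) (mul_nonneg hδ (by linarith))
        have ht1 : (t : ℝ) ≤ (a : ℝ) + δ * ((j' : ℝ) - j) := Nat.floor_le ht0
        have hsub : (Ico j n).filter (fun m => M0 ≤ m ∧ Bd m) ⊆
            Ico j (j + a) ∪ Ico (j' - t) j' := by
          intro m hm
          obtain ⟨hm1, hm2, hm3⟩ := mem_filter.mp hm
          obtain ⟨hm4, hm5⟩ := mem_Ico.mp hm1
          rw [mem_union, mem_Ico, mem_Ico]
          rcases h m j j' hm2 hm4 (by omega) hjm.2 hPj' hz' hm3 with h4 | h4
          · left; omega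
          · right
            have h5 : ((j' - m : ℕ) : ℝ) ≤ (a : ℝ) + δ * ((j' : ℝ) - j) := by
              rw [Nat.cast_sub (by omega)]; linarith
            have h6 : j' - m ≤ t := Nat.le_floor h5
            omega
        have h4 := (card_le_card hsub).trans (card_union_le _ _)
        rw [Nat.card_Ico, Nat.card_Ico] at h4
        have h5 : ((Ico j n).filter (fun m => M0 ≤ m ∧ Bd m)).card ≤ a + t := by omega
        have h6 : (((Ico j n).filter (fun m => M0 ≤ m ∧ Bd m)).card : ℝ) ≤ a + t := by
          exact_mod_cast h5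
        linarith
      have h4 : ((range j).filter P).card + 1 ≤ ((range n).filter P).card := by
        have h5 : insert j ((range j).filter P) ⊆ (range n).filter P := by
          intro k hk
          rw [mem_insert] at hk
          rcases hk with rfl | hk
          · exact mem_filter.mpr ⟨mem_range.mpr hjn, hjm.2⟩
          · have h6 := mem_filter.mp hk
            have h7 := mem_range.mp h6.1
            exact mem_filter.mpr ⟨mem_range.mpr (by omega), h6.2⟩
        have h6 := card_le_card h5
        rwa [card_insert_of_notMem (by simp)] at h6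
      have h4' : (((range j).filter P).card : ℝ) + 1 ≤ ((range n).filter P).card := by
        exact_mod_cast h4
      have h2' : (((range n).filter (fun m => M0 ≤ m ∧ Bd m)).card : ℝ) ≤
          ((range j).filter (fun m => M0 ≤ m ∧ Bd m)).card +
            ((Ico j n).filter (fun m => M0 ≤ m ∧ Bd m)).card := by exact_mod_cast h2
      have ha : (0 : ℝ) ≤ a := Nat.cast_nonneg _
      have h5 : 2 * (a : ℝ) * (((range j).filter P).card : ℝ) + 2 * a ≤
          2 * a * (((range n).filter P).card : ℝ) := by nlinarith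
      linarith
    · have h1 : (range n).filter (fun m => M0 ≤ m ∧ Bd m) = ∅ := by
        apply filter_eq_empty_iff.mpr
        intro m hm
        have := mem_range.mp hm
        omega
      rw [h1, card_empty]
      push_cast
      positivity

section
variable {b : ℕ} {y : ℝ}

/-- few positions with small tail -/
theorem bad_count (hb : 2 ≤ b) (hy0 : 0 < y) (hy1 : y < 1) (halg : IsAlgebraic ℚ y)
    (hirr : Irrational y) (c : ℝ) (δ : ℝ) (hδ : 0 < δ) (hδ1 : δ ≤ 1 / 4) :
    ∃ C : ℝ, 0 ≤ C ∧ ∀ n : ℕ,
      (((range n).filter (fun m => T b y m ≤ c * ep b y m)).card : ℝ) ≤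
        C * (K b y n + 1) + δ * n := by
  obtain ⟨M0, a, hP0, hbad⟩ := bad_pos hb hy0 hy1 halg hirr c (δ / 2) (by positivity)
    (by linarith)
  obtain ⟨L0, hgap⟩ := gap hb hy0 halg hirr (1 / 2) (by norm_num) (by norm_num)
  refine ⟨2 * a + M0 + L0 + 2 + 2 * a, by positivity, fun n => ?_⟩
  have hKn : (0 : ℝ) ≤ K b y n := Nat.cast_nonneg _
  have ha : (0 : ℝ) ≤ a := Nat.cast_nonneg _
  have hM : (0 : ℝ) ≤ M0 := Nat.cast_nonneg _
  have hL : (0 : ℝ) ≤ L0 := Nat.cast_nonneg _
  have hn0 : (0 : ℝ) ≤ n := Nat.cast_nonneg _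
  rcases Nat.lt_or_ge n L0 with hnL | hnL
  · have h1 : ((range n).filter (fun m => T b y m ≤ c * ep b y m)).card ≤ n := by
      simpa using card_filter_le (range n) (fun m => T b y m ≤ c * ep b y m)
    have h2 : (((range n).filter (fun m => T b y m ≤ c * ep b y m)).card : ℝ) ≤ L0 := by
      exact_mod_cast (h1.trans hnL.le)
    have h3 : (L0 : ℝ) * 1 ≤ (2 * a + M0 + L0 + 2 + 2 * a) * (K b y n + 1) :=
      mul_le_mul (by linarith) (by linarith) (by norm_num) (by positivity)
    have h4 : 0 ≤ δ * n := by positivity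
    linarith
  · obtain ⟨k, hk1, hk2, hk3⟩ := hgap n hnL
    have hex : ∃ k, n ≤ k ∧ 1 ≤ x b y k := ⟨k, hk1.le, hk3⟩
    set j' := Nat.find hex with hj'
    have hj'1 := Nat.find_spec hex
    rw [← hj'] at hj'1
    have hj'k : j' ≤ k := Nat.find_min' hex ⟨hk1.le, hk3⟩
    have h1 := count_blocks (fun k => 1 ≤ x b y k) (fun m => T b y m ≤ c * ep b y m) M0 a (δ / 2)
      (by positivity) hP0 (by
        intro m j j'' h1 h2 h3 h4 h5 h6 h7
        exact hbad m j j'' h1 h2 h3 h4 h5 (fun k hk1 hk2 => by
          have := h6 k hk1 hk2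
          omega) h7) n j' hj'1.1 hj'1.2 (by
        intro k' hk'1 hk'2 hk'3
        exact Nat.find_min hex hk'2 ⟨hk'1, hk'3⟩)
    have h2 : ((range n).filter (fun m => T b y m ≤ c * ep b y m)).card ≤
        ((range n).filter (fun m => M0 ≤ m ∧ T b y m ≤ c * ep b y m)).card + M0 := by
      have h3 : (range n).filter (fun m => T b y m ≤ c * ep b y m) ⊆
          (range n).filter (fun m => M0 ≤ m ∧ T b y m ≤ c * ep b y m) ∪ range M0 := by
        intro m hm
        obtain ⟨hm1, hm2⟩ := mem_filter.mp hm
        rw [mem_union]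
        rcases Nat.lt_or_ge m M0 with h4 | h4
        · exact Or.inr (mem_range.mpr h4)
        · exact Or.inl (mem_filter.mpr ⟨hm1, h4, hm2⟩)
      have h4 := (card_le_card h3).trans (card_union_le _ _)
      rwa [card_range] at h4
    have h3 : ((range n).filter (fun k => 1 ≤ x b y k)).card ≤ K b y n := by
      unfold K
      rw [card_filter]
      refine (sum_le_sum fun i _ => ?_).trans (sum_le_sum_of_subset (range_mono (Nat.le_succ n)))
      split_ifs with h4
      · exact h4
      · exact Nat.zero_le _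
    have h2' : (((range n).filter (fun m => T b y m ≤ c * ep b y m)).card : ℝ) ≤
        ((range n).filter (fun m => M0 ≤ m ∧ T b y m ≤ c * ep b y m)).card + M0 := by
      exact_mod_cast h2
    have h3' : (((range n).filter (fun k => 1 ≤ x b y k)).card : ℝ) ≤ K b y n := by
      exact_mod_cast h3
    have hj'R : (j' : ℝ) ≤ n + 1 + 1 / 2 * n := by
      have : (j' : ℝ) ≤ k := by exact_mod_cast hj'k
      linarith
    have h4 : δ / 2 * j' ≤ δ * n + 1 := by
      have : δ / 2 * j' ≤ δ / 2 * (n + 1 + 1 / 2 * n) :=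
        mul_le_mul_of_nonneg_left hj'R (by positivity)
      nlinarith
    have h5 : 2 * (a : ℝ) * (((range n).filter (fun k => 1 ≤ x b y k)).card : ℝ) ≤
        2 * a * K b y n := mul_le_mul_of_nonneg_left h3' (by positivity)
    have h6 : 2 * (a : ℝ) * K b y n + M0 + 2 * a + 1 ≤
        (2 * a + M0 + L0 + 2 + 2 * a) * (K b y n + 1) := by nlinarith
    linarith

end

end Pool.Agent.H820R3.DG
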