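import Pool.Agent.H820R3.DG.Count

/-!
# Representation numbers and tails for powers of `1 + y`: definitions and statements
-/

set_option autoImplicit false

open Finset

namespace Pool.Agent.H820R3.DG

open Pool.Agent.H394R2.Ones

/-- the digits of `1 + y`, the integer part `1` being the digit number `0` -/
noncomputable def xx (b : ℕ) (y : ℝ) (i : ℕ) : ℕ := if i = 0 then 1 else x b y i

/-- `rr f d m`: the sum of `f i₁ ⋯ f i_d` over all `i₁ + ⋯ + i_d = m` -/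
def rr (f : ℕ → ℕ) : ℕ → ℕ → ℕ
  | 0, m => if m = 0 then 1 else 0
  | (d + 1), m => ∑ p ∈ antidiagonal m, f p.1 * rr f d p.2

/-- the tail of the `d`-th power of `1 + y` at position `N` -/
noncomputable def TT (b : ℕ) (y : ℝ) (d N : ℕ) : ℝ :=
  (1 + y) ^ d * (b : ℝ) ^ N - ∑ m ∈ range (N + 1), (rr (xx b y) d m : ℝ) * (b : ℝ) ^ (N - m)

/-- digit sum of `1 + y`, including the integer part -/
noncomputable def KK (b : ℕ) (y : ℝ) (n : ℕ) : ℕ := ∑ i ∈ range (n + 1), xx b y i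

/-! Statements proved in `Basic2.lean` (all for `2 ≤ b`, `0 < y < 1`, `y` irrational) -/

/-- recursions -/
def BasicStmt : Prop :=
  ∀ (b : ℕ) (y : ℝ), 2 ≤ b → 0 < y → y < 1 → Irrational y →
    (∀ n, KK b y n = K b y n + 1) ∧
    (∀ N, TT b y 0 N = 0) ∧
    (∀ d N, TT b y d (N + 1) = b * TT b y d N - rr (xx b y) d (N + 1)) ∧
    (∀ d N, 0 ≤ TT b y d N) ∧
    (∀ d N, TT b y d N ≤ TT b y (d + 1) N) ∧
    (∀ d N, TT b y (d + 1) N ≤ 3 ^ (d + 1) * (KK b y N : ℝ) ^ d) ∧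
    (∀ d n, ∑ m ∈ range (n + 1), rr (xx b y) d m ≤ KK b y n ^ d) ∧
    (∀ d m, 1 ≤ rr (xx b y) d m → 1 ≤ rr (xx b y) (d + 1) m) ∧
    (∀ d n, ((b : ℝ) - 1) * ∑ N ∈ range n, TT b y d N ≤ TT b y d n + (KK b y n : ℝ) ^ d)

/-- few bad positions -/
def BadStmt : Prop :=
  ∀ (b : ℕ) (y : ℝ), 2 ≤ b → 0 < y → y < 1 → IsAlgebraic ℚ y → Irrational y →
    ∀ (d : ℕ) (c δ : ℝ), 1 ≤ d → 0 < δ → ∃ C : ℝ, 0 ≤ C ∧ ∀ n : ℕ,
      (((range n).filter (fun m => TT b y (d + 1) m ≤ c * TT b y d m)).card : ℝ) ≤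
        C * (1 + Real.log (n + 1)) * (KK b y n : ℝ) ^ d + δ * n

/-- (A): divisibility by the factorial -/
def FactStmt : Prop :=
  ∀ (f : ℕ → ℕ) (d m : ℕ), (∀ i j, 2 * i + j = m → 1 ≤ f i → rr f d j = 0) →
    (d + 2).factorial ∣ rr f (d + 2) m

end Pool.Agent.H820R3.DG
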