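import Pool.Agent.H820R3.DG.Basic2

/-!
# The integers attached to an algebraic equation, and windows
-/

set_option autoImplicit false

open Finset

namespace Pool.Agent.H820R3.DG

open Pool.Agent.H394R2.Ones

/-- truncated sums -/
def SS (f : ℕ → ℕ) (b k N : ℕ) : ℕ := ∑ m ∈ range (N + 1), rr f k m * b ^ (N - m)

lemma SS_succ (f : ℕ → ℕ) (b k N : ℕ) : SS f b k (N + 1) = b * SS f b k N + rr f k (N + 1) := by
  unfold SS
  rw [sum_range_succ _ (N + 1), Nat.sub_self, pow_zero, mul_one, mul_sum]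
  congr 1
  refine sum_congr rfl fun m hm => ?_
  have : m ≤ N := by have := mem_range.mp hm; omega
  rw [Nat.succ_sub this, pow_succ]
  ring

/-- the integers -/
def ZZ (c : ℕ → ℤ) (D : ℕ) (f : ℕ → ℕ) (b N : ℕ) : ℤ :=
  -∑ k ∈ range (D + 1), c k * (SS f b k N : ℤ)

lemma ZZ_succ (c : ℕ → ℤ) (D : ℕ) (f : ℕ → ℕ) (b N : ℕ) : ZZ c D f b (N + 1) =
    b * ZZ c D f b N - ∑ k ∈ range (D + 1), c k * (rr f k (N + 1) : ℤ) := by
  unfold ZZ
  rw [mul_neg, mul_sum, ← neg_add', ← sum_add_distrib]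
  congr 1
  refine sum_congr rfl fun k _ => ?_
  rw [SS_succ]
  push_cast
  ring

section
variable {b : ℕ} {y : ℝ}

lemma ZZ_eq (c : ℕ → ℤ) (D : ℕ) (hP : ∑ k ∈ range (D + 1), (c k : ℝ) * (1 + y) ^ k = 0) (N : ℕ) :
    (ZZ c D (xx b y) b N : ℝ) = ∑ k ∈ range (D + 1), (c k : ℝ) * TT b y k N := by
  have h1 : ∀ k, TT b y k N = (1 + y) ^ k * (b : ℝ) ^ N - (SS (xx b y) b k N : ℝ) := by
    intro k
    unfold TT SS
    push_cast
    rfl
  simp only [h1, mul_sub, sum_sub_distrib]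
  have h2 : ∑ k ∈ range (D + 1), (c k : ℝ) * ((1 + y) ^ k * (b : ℝ) ^ N) = 0 := by
    simp only [← mul_assoc]
    rw [← sum_mul, hP, zero_mul]
  rw [h2]
  unfold ZZ
  push_cast
  ring

lemma rr_zero_of (d m : ℕ) (h : rr (xx b y) d m = 0) : ∀ k, k ≤ d → rr (xx b y) k m = 0 := by
  intro k hk
  by_contra hne
  have h1 : ∀ j, 1 ≤ rr (xx b y) (k + j) m := by
    intro j
    induction j with
    | zero => simpa using Nat.one_le_iff_ne_zero.mpr hne
    | succ j ih => exact rr_supp _ _ ih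
  have h2 := h1 (d - k)
  rw [Nat.add_sub_cancel' hk, h] at h2
  omega

lemma TT_le_top (hb : 2 ≤ b) (hy0 : 0 < y) (hy1 : y < 1) (N d : ℕ) :
    ∀ k, k ≤ d → TT b y k N ≤ TT b y d N := by
  intro k hk
  have h1 : ∀ j, TT b y k N ≤ TT b y (k + j) N := by
    intro j
    induction j with
    | zero => simp
    | succ j ih => exact ih.trans (TT_mono hb hy0 hy1 _ _)
  have := h1 (d - k)
  rwa [Nat.add_sub_cancel' hk] at this

/-- a position is dirty if the tail is small, or a smaller power is represented, or the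
representation number is not divisible by the factorial -/
def Dirty (b : ℕ) (y : ℝ) (d : ℕ) (c' : ℝ) (m : ℕ) : Prop :=
  TT b y (d + 2) m ≤ c' * TT b y (d + 1) m ∨ 1 ≤ rr (xx b y) (d + 1) m ∨
    ¬ (d + 2).factorial ∣ rr (xx b y) (d + 2) m

variable (hb : 2 ≤ b) (hy0 : 0 < y) (hy1 : y < 1) (d : ℕ) (c : ℕ → ℤ)
  (hP : ∑ k ∈ range (d + 2 + 1), (c k : ℝ) * (1 + y) ^ k = 0) (hc : 0 < c (d + 2))

include hb hy0 hy1 hP in
lemma ZZ_le (N : ℕ) : (ZZ c (d + 2) (xx b y) b N : ℝ) ≤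
    c (d + 2) * TT b y (d + 2) N + (∑ k ∈ range (d + 2), |(c k : ℝ)|) * TT b y (d + 1) N := by
  rw [ZZ_eq c (d + 2) hP, sum_range_succ, add_comm, sum_mul]
  refine add_le_add le_rfl (sum_le_sum fun k hk => ?_)
  have h1 := TT_le_top hb hy0 hy1 N (d + 1) k (by have := mem_range.mp hk; omega)
  have h2 := TT_nonneg hb hy0 hy1 k N
  calc (c k : ℝ) * TT b y k N ≤ |(c k : ℝ)| * TT b y k N :=
        mul_le_mul_of_nonneg_right (le_abs_self _) h2
    _ ≤ |(c k : ℝ)| * TT b y (d + 1) N := mul_le_mul_of_nonneg_left h1 (abs_nonneg _)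

include hb hy0 hy1 hP hc in
lemma ZZ_pos (N : ℕ)
    (h : ¬ TT b y (d + 2) N ≤ (∑ k ∈ range (d + 2), |(c k : ℝ)|) * TT b y (d + 1) N) :
    1 ≤ ZZ c (d + 2) (xx b y) b N := by
  have h0 : (0 : ℝ) < ZZ c (d + 2) (xx b y) b N := by
    rw [ZZ_eq c (d + 2) hP, sum_range_succ]
    have h1 : -((∑ k ∈ range (d + 2), |(c k : ℝ)|) * TT b y (d + 1) N) ≤
        ∑ k ∈ range (d + 2), (c k : ℝ) * TT b y k N := by
      rw [sum_mul, ← sum_neg_distrib]
      refine sum_le_sum fun k hk => ?_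
      have h1 := TT_le_top hb hy0 hy1 N (d + 1) k (by have := mem_range.mp hk; omega)
      have h2 := TT_nonneg hb hy0 hy1 k N
      have h3 : |(c k : ℝ)| * TT b y k N ≤ |(c k : ℝ)| * TT b y (d + 1) N :=
        mul_le_mul_of_nonneg_left h1 (abs_nonneg _)
      have h4 : -|(c k : ℝ)| * TT b y k N ≤ c k * TT b y k N :=
        mul_le_mul_of_nonneg_right (neg_abs_le _) h2
      linarith
    push Not at h
    have h2 : (1 : ℝ) ≤ c (d + 2) := by exact_mod_cast hc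
    have h3 := TT_nonneg hb hy0 hy1 (d + 2) N
    nlinarith
  have h1 : 0 < ZZ c (d + 2) (xx b y) b N := by exact_mod_cast h0
  omega

/-- at clean positions the integers are multiplied by `b` modulo `a D!` -/
lemma ZZ_mod (m : ℕ) (h1 : ¬ 1 ≤ rr (xx b y) (d + 1) (m + 1))
    (h2 : (d + 2).factorial ∣ rr (xx b y) (d + 2) (m + 1)) :
    ZZ c (d + 2) (xx b y) b (m + 1) ≡ b * ZZ c (d + 2) (xx b y) b m
      [ZMOD c (d + 2) * ((d + 2).factorial : ℤ)] := by
  rw [ZZ_succ, sum_range_succ]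
  have h3 : ∑ k ∈ range (d + 2), c k * (rr (xx b y) k (m + 1) : ℤ) = 0 := by
    apply sum_eq_zero
    intro k hk
    rw [rr_zero_of (d + 1) (m + 1) (by omega) k (by have := mem_range.mp hk; omega)]
    simp
  rw [h3, zero_add]
  obtain ⟨q, hq⟩ := h2
  rw [hq]
  apply Int.ModEq.symm
  rw [Int.modEq_iff_dvd]
  refine ⟨-q, ?_⟩
  push_cast
  ring

/-- the sum over a clean window -/
lemma window (hb : 2 ≤ b) (hy0 : 0 < y) (hy1 : y < 1)
    (hP : ∑ k ∈ range (d + 2 + 1), (c k : ℝ) * (1 + y) ^ k = 0) (hc : 0 < c (d + 2)) (W cW N : ℕ)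
    (hW : ∀ t : ℤ, (cW : ℤ) ≤ ∑ j ∈ range W,
      (((b : ℤ) ^ j * t - 1) % (c (d + 2) * ((d + 2).factorial : ℤ)) + 1))
    (h : ∀ j, j < W → ¬ Dirty b y d (∑ k ∈ range (d + 2), |(c k : ℝ)|) (N + j)) :
    (cW : ℤ) ≤ ∑ j ∈ range W, ZZ c (d + 2) (xx b y) b (N + j) := by
  set M : ℤ := c (d + 2) * ((d + 2).factorial : ℤ) with hM
  have hM0 : 0 < M := mul_pos hc (by exact_mod_cast Nat.factorial_pos _)
  have hmod : ∀ j, j < W → ZZ c (d + 2) (xx b y) b (N + j) ≡
      (b : ℤ) ^ j * ZZ c (d + 2) (xx b y) b N [ZMOD M] := by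
    intro j
    induction j with
    | zero => intro _; simp
    | succ j ih =>
      intro hj
      have h1 := ih (by omega)
      have h2 := h (j + 1) hj
      unfold Dirty at h2
      push Not at h2
      have h3 := ZZ_mod (b := b) (y := y) d c (N + j) (by
        rw [add_assoc]; omega) (by rw [add_assoc]; exact h2.2.2)
      rw [← add_assoc]
      refine h3.trans ?_
      have h4 := h1.mul_left (b : ℤ)
      refine h4.trans ?_
      rw [pow_succ]
      have : (b : ℤ) * ((b : ℤ) ^ j * ZZ c (d + 2) (xx b y) b N) =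
        (b : ℤ) ^ j * b * ZZ c (d + 2) (xx b y) b N := by ring
      rw [this]
  refine (hW (ZZ c (d + 2) (xx b y) b N)).trans (sum_le_sum fun j hj => ?_)
  have hj' := mem_range.mp hj
  have h1 := h j hj'
  unfold Dirty at h1
  push Not at h1
  have h2 := ZZ_pos hb hy0 hy1 d c hP hc (N + j) (not_le.mpr h1.1)
  have h3 : ((b : ℤ) ^ j * ZZ c (d + 2) (xx b y) b N - 1) % M =
      (ZZ c (d + 2) (xx b y) b (N + j) - 1) % M := ((hmod j hj').symm.sub_right 1)
  rw [h3]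
  have h4 : (ZZ c (d + 2) (xx b y) b (N + j) - 1) % M ≤ ZZ c (d + 2) (xx b y) b (N + j) - 1 := by
    have h5 := Int.emod_add_mul_ediv (ZZ c (d + 2) (xx b y) b (N + j) - 1) M
    have h6 : 0 ≤ (ZZ c (d + 2) (xx b y) b (N + j) - 1) / M :=
      Int.ediv_nonneg (by omega) hM0.le
    nlinarith
  omega

open Classical in
/-- sums over all positions -/
lemma block_sum (hb : 2 ≤ b) (hy0 : 0 < y) (hy1 : y < 1)
    (hP : ∑ k ∈ range (d + 2 + 1), (c k : ℝ) * (1 + y) ^ k = 0) (hc : 0 < c (d + 2)) (W cW : ℕ)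
    (hW : ∀ t : ℤ, (cW : ℤ) ≤ ∑ j ∈ range W,
      (((b : ℤ) ^ j * t - 1) % (c (d + 2) * ((d + 2).factorial : ℤ)) + 1)) (Q : ℕ) :
    (cW : ℝ) * Q ≤ ∑ N ∈ range (W * Q), (max (ZZ c (d + 2) (xx b y) b N : ℝ) 0 +
      cW * (if Dirty b y d (∑ k ∈ range (d + 2), |(c k : ℝ)|) N then 1 else 0)) := by
  induction Q with
  | zero => simp
  | succ Q ih =>
    rw [Nat.mul_succ, sum_range_add]
    push_cast
    have h1 : (cW : ℝ) ≤ ∑ j ∈ range W, (max (ZZ c (d + 2) (xx b y) b (W * Q + j) : ℝ) 0 +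
        cW * (if Dirty b y d (∑ k ∈ range (d + 2), |(c k : ℝ)|) (W * Q + j) then 1 else 0)) := by
      have hnn : ∀ j ∈ range W, 0 ≤ (max (ZZ c (d + 2) (xx b y) b (W * Q + j) : ℝ) 0 +
          cW * (if Dirty b y d (∑ k ∈ range (d + 2), |(c k : ℝ)|) (W * Q + j) then 1 else 0)) := by
        intro j _
        have h2 : (0 : ℝ) ≤ cW * (if Dirty b y d (∑ k ∈ range (d + 2), |(c k : ℝ)|) (W * Q + j)
          then 1 else 0) := by split_ifs <;> positivity
        have h3 : (0 : ℝ) ≤ max (ZZ c (d + 2) (xx b y) b (W * Q + j) : ℝ) 0 := le_max_right _ _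
        linarith
      by_cases hd : ∃ j, j < W ∧ Dirty b y d (∑ k ∈ range (d + 2), |(c k : ℝ)|) (W * Q + j)
      · obtain ⟨j, hj, hdj⟩ := hd
        refine le_trans ?_ (single_le_sum hnn (mem_range.mpr hj))
        rw [if_pos hdj]
        have h3 : (0 : ℝ) ≤ max (ZZ c (d + 2) (xx b y) b (W * Q + j) : ℝ) 0 := le_max_right _ _
        linarith
      · push Not at hd
        have h2 := window d c hb hy0 hy1 hP hc W cW (W * Q) hW hd
        have h3 : (cW : ℝ) ≤ ∑ j ∈ range W, (ZZ c (d + 2) (xx b y) b (W * Q + j) : ℝ) := by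
          exact_mod_cast h2
        refine h3.trans (sum_le_sum fun j hj => ?_)
        rw [if_neg (hd j (mem_range.mp hj))]
        have := le_max_left (ZZ c (d + 2) (xx b y) b (W * Q + j) : ℝ) 0
        linarith
    linarith

end

end Pool.Agent.H820R3.DG
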