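import Pool.Agent.H820R3.DG.Bad3
import Pool.Agent.H820R3.DG.Win
import Pool.Agent.H820R3.DG.Asym

/-!
# Digit sums of algebraic numbers of arbitrary degree
-/

set_option autoImplicit false

open Finset

namespace Pool.Agent.H820R3.DG

open Pool.Agent.H394R2.Ones

section
variable {b : ℕ} {y : ℝ}

lemma card_le_sum_filter (n : ℕ) (g : ℕ → ℕ) :
    ((range n).filter (fun m => 1 ≤ g m)).card ≤ ∑ m ∈ range n, g m := by
  rw [card_filter]
  refine sum_le_sum fun i _ => ?_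
  split_ifs with h
  · exact h
  · exact Nat.zero_le _

open Classical in
lemma dirty_count (hFact : FactStmt) (hb : 2 ≤ b) (hy0 : 0 < y) (hy1 : y < 1)
    (halg : IsAlgebraic ℚ y) (hirr : Irrational y) (d : ℕ) (c' δ : ℝ) (hδ : 0 < δ) :
    ∃ C : ℝ, 0 ≤ C ∧ ∀ n : ℕ, (((range n).filter (Dirty b y d c')).card : ℝ) ≤
      C * (1 + Real.log ((n : ℝ) + 1)) * (KK b y n : ℝ) ^ (d + 1) + δ * n := by
  obtain ⟨C, hC, hCn⟩ := badStmt b y hb hy0 hy1 halg hirr (d + 1) c' δ (by omega) hδ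
  refine ⟨C + 2, by positivity, fun n => ?_⟩
  have h1 := hCn n
  have hℓ : 0 ≤ Real.log ((n : ℝ) + 1) := Real.log_nonneg (by
    have : (0 : ℝ) ≤ n := Nat.cast_nonneg _
    linarith)
  have hA : ((range n).filter (fun m => 1 ≤ rr (xx b y) (d + 1) m)).card ≤
      KK b y n ^ (d + 1) :=
    (card_le_sum_filter n _).trans
      ((sum_le_sum_of_subset (range_mono (Nat.le_succ n))).trans (rr_sum (d + 1) n))
  have hB : ((range n).filter (fun m => ¬ (d + 2).factorial ∣ rr (xx b y) (d + 2) m)).card ≤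
      KK b y n ^ (d + 1) := by
    have hsub : (range n).filter (fun m => ¬ (d + 2).factorial ∣ rr (xx b y) (d + 2) m) ⊆
        (((range (n + 1)).filter (fun i => 1 ≤ xx b y i)) ×ˢ
          ((range (n + 1)).filter (fun j => 1 ≤ rr (xx b y) d j))).image
          (fun p : ℕ × ℕ => 2 * p.1 + p.2) := by
      intro m hm
      obtain ⟨hm1, hm2⟩ := mem_filter.mp hm
      have hm3 := mem_range.mp hm1
      have h2 : ∃ i j, 2 * i + j = m ∧ 1 ≤ xx b y i ∧ rr (xx b y) d j ≠ 0 := by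
        by_contra hcon
        push Not at hcon
        exact hm2 (hFact (xx b y) d m fun i j h3 h4 => hcon i j h3 h4)
      obtain ⟨i, j, h3, h4, h5⟩ := h2
      refine mem_image.mpr ⟨(i, j), mem_product.mpr ⟨?_, ?_⟩, h3⟩
      · exact mem_filter.mpr ⟨mem_range.mpr (by omega), h4⟩
      · exact mem_filter.mpr ⟨mem_range.mpr (by omega), Nat.one_le_iff_ne_zero.mpr h5⟩
    refine (card_le_card hsub).trans (card_image_le.trans ?_)
    rw [card_product, pow_succ, mul_comm (KK b y n ^ d)]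
    refine Nat.mul_le_mul ?_ ?_
    · exact card_le_sum_filter (n + 1) _
    · exact (card_le_sum_filter (n + 1) _).trans (rr_sum d n)
  have hD : ((range n).filter (Dirty b y d c')).card ≤
      ((range n).filter (fun m => TT b y (d + 1 + 1) m ≤ c' * TT b y (d + 1) m)).card +
      ((range n).filter (fun m => 1 ≤ rr (xx b y) (d + 1) m)).card +
      ((range n).filter (fun m => ¬ (d + 2).factorial ∣ rr (xx b y) (d + 2) m)).card := by
    refine le_trans (card_le_card ?_) ((card_union_le _ _).trans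
      (Nat.add_le_add_right (card_union_le _ _) _))
    intro m hm
    obtain ⟨hm1, hm2⟩ := mem_filter.mp hm
    rw [mem_union, mem_union]
    rcases hm2 with h2 | h2 | h2
    · exact Or.inl (Or.inl (mem_filter.mpr ⟨hm1, h2⟩))
    · exact Or.inl (Or.inr (mem_filter.mpr ⟨hm1, h2⟩))
    · exact Or.inr (mem_filter.mpr ⟨hm1, h2⟩)
  have hA' : (((range n).filter (fun m => 1 ≤ rr (xx b y) (d + 1) m)).card : ℝ) ≤
      (KK b y n : ℝ) ^ (d + 1) := by exact_mod_cast hA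
  have hB' : (((range n).filter
      (fun m => ¬ (d + 2).factorial ∣ rr (xx b y) (d + 2) m)).card : ℝ) ≤
      (KK b y n : ℝ) ^ (d + 1) := by exact_mod_cast hB
  have hD' : (((range n).filter (Dirty b y d c')).card : ℝ) ≤
      ((range n).filter (fun m => TT b y (d + 1 + 1) m ≤ c' * TT b y (d + 1) m)).card +
      ((range n).filter (fun m => 1 ≤ rr (xx b y) (d + 1) m)).card +
      ((range n).filter (fun m => ¬ (d + 2).factorial ∣ rr (xx b y) (d + 2) m)).card := by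
    exact_mod_cast hD
  have h3 : 2 * (KK b y n : ℝ) ^ (d + 1) ≤
      2 * (1 + Real.log ((n : ℝ) + 1)) * (KK b y n : ℝ) ^ (d + 1) := by
    apply mul_le_mul_of_nonneg_right _ (by positivity)
    linarith
  have h4 : (C + 2) * (1 + Real.log ((n : ℝ) + 1)) * (KK b y n : ℝ) ^ (d + 1) =
      C * (1 + Real.log ((n : ℝ) + 1)) * (KK b y n : ℝ) ^ (d + 1) +
      2 * (1 + Real.log ((n : ℝ) + 1)) * (KK b y n : ℝ) ^ (d + 1) := by ring
  have h5 : (((range n).filter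
      (fun m => TT b y (d + 1 + 1) m ≤ c' * TT b y (d + 1) m)).card : ℝ) ≤
      C * (1 + Real.log ((n : ℝ) + 1)) * (KK b y n : ℝ) ^ (d + 1) + δ * n := by
    convert h1
  rw [h4]
  linarith

theorem deg_main (hFact : FactStmt) (hb : 2 ≤ b) (hy0 : 0 < y) (hy1 : y < 1)
    (halg : IsAlgebraic ℚ y) (hirr : Irrational y) (d : ℕ) (c : ℕ → ℤ)
    (hP : ∑ k ∈ range (d + 2 + 1), (c k : ℝ) * (1 + y) ^ k = 0) (hc : 0 < c (d + 2)) (W cW : ℕ)
    (hW0 : 1 ≤ W) (hW : ∀ t : ℤ, (cW : ℤ) ≤ ∑ j ∈ range W,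
      (((b : ℤ) ^ j * t - 1) % (c (d + 2) * ((d + 2).factorial : ℤ)) + 1)) (ε : ℝ) (hε : 0 < ε) :
    ∃ n0 : ℕ, ∀ n : ℕ, n0 ≤ n →
      (((b : ℝ) - 1) * cW / (W * c (d + 2)) - ε) * n ≤ (K b y n : ℝ) ^ (d + 2) := by
  classical
  have hb2 : (2 : ℝ) ≤ b := by exact_mod_cast hb
  have ha1 : (1 : ℝ) ≤ c (d + 2) := by exact_mod_cast hc
  have hWR : (1 : ℝ) ≤ W := by exact_mod_cast hW0
  have hcW : (0 : ℝ) ≤ cW := Nat.cast_nonneg _
  set a : ℝ := ((c (d + 2) : ℤ) : ℝ) with ha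
  set c' : ℝ := ∑ k ∈ range (d + 2), |(c k : ℝ)| with hc'
  have hc'0 : 0 ≤ c' := sum_nonneg fun _ _ => abs_nonneg _
  have hKK1 : ∀ n, (1 : ℝ) ≤ KK b y n := fun n => by exact_mod_cast KK_pos hy0 hy1 n
  have hmain := asym d (fun n => (KK b y n : ℝ)) hKK1 (((b : ℝ) - 1) * cW / (W * a)) ?_ ε hε
  · obtain ⟨n0, hn0⟩ := hmain
    refine ⟨n0, fun n hn => ?_⟩
    have h1 := hn0 n hn
    have h2 : ((KK b y n : ℕ) : ℝ) - 1 = K b y n := by
      rw [KK_eq hy0 hy1]; push_cast; ring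
    rwa [h2] at h1
  intro δ hδ
  set δ1 : ℝ := δ * a / (((b : ℝ) - 1) * (cW + 1)) with hδ1
  have hb1 : 0 < (b : ℝ) - 1 := by linarith
  have hδ10 : 0 < δ1 := by positivity
  obtain ⟨C, hC, hCn⟩ := dirty_count hFact hb hy0 hy1 halg hirr d c' δ1 hδ10
  set Ct : ℝ := 3 ^ (d + 2) + c' * (3 ^ (d + 1) + 1) + ((b : ℝ) - 1) * cW * C +
    ((b : ℝ) - 1) * cW with hCt
  refine ⟨Ct, by positivity, fun n => ?_⟩
  set Kn : ℝ := (KK b y n : ℝ) with hKn
  have hK1 : 1 ≤ Kn := hKK1 n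
  have hℓ : 0 ≤ Real.log ((n : ℝ) + 1) := Real.log_nonneg (by
    have : (0 : ℝ) ≤ n := Nat.cast_nonneg _
    linarith)
  set ℓ := Real.log ((n : ℝ) + 1) with hℓdef
  have hn0 : (0 : ℝ) ≤ n := Nat.cast_nonneg _
  -- blocks
  set Q : ℕ := n / W with hQ
  have hWQ : W * Q ≤ n := Nat.mul_div_le n W
  have hQ2 : n < W * (Q + 1) := by
    have := Nat.lt_mul_div_succ n (show 0 < W by omega)
    simpa [hQ, Nat.succ_eq_add_one] using this
  have hQ3 : (n : ℝ) / W - 1 ≤ Q := by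
    have h1 : (n : ℝ) < W * (Q + 1) := by exact_mod_cast hQ2
    have h2 : (n : ℝ) / W < Q + 1 := by rw [div_lt_iff₀ (by linarith)]; linarith
    linarith
  have h1 := block_sum d c hb hy0 hy1 hP hc W cW hW Q
  have h2 : ∑ N ∈ range (W * Q), (max (ZZ c (d + 2) (xx b y) b N : ℝ) 0 +
      cW * (if Dirty b y d c' N then 1 else 0)) ≤
      ∑ N ∈ range n, (a * TT b y (d + 2) N + c' * TT b y (d + 1) N +
        cW * (if Dirty b y d c' N then 1 else 0)) := by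
    have h3 : ∀ N, max (ZZ c (d + 2) (xx b y) b N : ℝ) 0 ≤
        a * TT b y (d + 2) N + c' * TT b y (d + 1) N := by
      intro N
      apply max_le (ZZ_le hb hy0 hy1 d c hP N)
      have e1 := TT_nonneg hb hy0 hy1 (d + 2) N
      have e2 := TT_nonneg hb hy0 hy1 (d + 1) N
      positivity
    refine (sum_le_sum fun N _ => add_le_add (h3 N) le_rfl).trans ?_
    refine sum_le_sum_of_subset_of_nonneg (range_mono hWQ) fun N _ _ => ?_
    have e1 := TT_nonneg hb hy0 hy1 (d + 2) N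
    have e2 := TT_nonneg hb hy0 hy1 (d + 1) N
    have e3 : (0 : ℝ) ≤ if Dirty b y d c' N then 1 else 0 := by split_ifs <;> norm_num
    positivity
  simp only [sum_add_distrib, ← mul_sum] at h1 h2
  have h3 : (∑ N ∈ range n, (if Dirty b y d c' N then (1 : ℝ) else 0)) =
      (((range n).filter (Dirty b y d c')).card : ℝ) := by
    rw [card_filter]; push_cast; rfl
  rw [h3] at h2
  have h4 := TT_sum hb hy0 hy1 (d + 2) n
  have h5 := TT_sum hb hy0 hy1 (d + 1) n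
  have h6 := TT_upper hb hy0 hy1 (d + 1) n
  have h7 := TT_upper hb hy0 hy1 d n
  rw [← hKn] at h4 h5 h6 h7
  have hp1 : Kn ^ d ≤ Kn ^ (d + 1) := pow_le_pow_right₀ hK1 (Nat.le_succ d)
  have hKp : 1 ≤ Kn ^ (d + 1) := one_le_pow₀ hK1
  have h8 : ((b : ℝ) - 1) * ∑ N ∈ range n, TT b y (d + 1) N ≤ (3 ^ (d + 1) + 1) * Kn ^ (d + 1) := by
    have h9 : (3 : ℝ) ^ (d + 1) * Kn ^ d ≤ 3 ^ (d + 1) * Kn ^ (d + 1) :=
      mul_le_mul_of_nonneg_left hp1 (by positivity)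
    linarith
  have h9 : ((b : ℝ) - 1) * ∑ N ∈ range n, TT b y (d + 2) N ≤
      3 ^ (d + 2) * Kn ^ (d + 1) + Kn ^ (d + 2) := by linarith
  have h10 := hCn n
  rw [← hKn, ← hℓdef] at h10
  -- combine
  have h11 : ((b : ℝ) - 1) * (cW * ((n : ℝ) / W - 1)) ≤
      a * (3 ^ (d + 2) * Kn ^ (d + 1) + Kn ^ (d + 2)) + c' * ((3 ^ (d + 1) + 1) * Kn ^ (d + 1)) +
      ((b : ℝ) - 1) * (cW * (C * (1 + ℓ) * Kn ^ (d + 1) + δ1 * n)) := by
    have e1 : (cW : ℝ) * ((n : ℝ) / W - 1) ≤ cW * Q := mul_le_mul_of_nonneg_left hQ3 hcW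
    have e2 := mul_le_mul_of_nonneg_left (e1.trans (h1.trans h2)) hb1.le
    have e3 := mul_le_mul_of_nonneg_left h9 (by linarith : 0 ≤ a)
    have e4 := mul_le_mul_of_nonneg_left h8 hc'0
    have e5 := mul_le_mul_of_nonneg_left (mul_le_mul_of_nonneg_left h10 hcW) hb1.le
    linarith
  have h12 : ((b : ℝ) - 1) * (cW * (δ1 * n)) ≤ δ * a * n := by
    have e1 : ((b : ℝ) - 1) * (cW * (δ1 * n)) = δ * a * n * (cW / (cW + 1)) := by
      rw [hδ1]; field_simp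
    rw [e1]
    have e2 : (cW : ℝ) / (cW + 1) ≤ 1 := by rw [div_le_one (by linarith)]; linarith
    have e3 : 0 ≤ δ * a * n := by positivity
    nlinarith
  have h13 : ((b : ℝ) - 1) * cW / (W * a) * n * a = ((b : ℝ) - 1) * (cW * ((n : ℝ) / W)) := by
    field_simp
  have h14 : c' * ((3 ^ (d + 1) + 1) * Kn ^ (d + 1)) ≤
      a * (c' * (3 ^ (d + 1) + 1) * Kn ^ (d + 1)) := by
    have : 0 ≤ c' * (3 ^ (d + 1) + 1) * Kn ^ (d + 1) := by positivity
    nlinarith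
  have h15 : ((b : ℝ) - 1) * (cW * (C * (1 + ℓ) * Kn ^ (d + 1))) ≤
      a * (((b : ℝ) - 1) * cW * C * (1 + ℓ) * Kn ^ (d + 1)) := by
    have : 0 ≤ ((b : ℝ) - 1) * cW * C * (1 + ℓ) * Kn ^ (d + 1) := by positivity
    nlinarith
  have h16 : ((b : ℝ) - 1) * cW ≤ a * (((b : ℝ) - 1) * cW * Kn ^ (d + 1)) := by
    have e1 : 0 ≤ ((b : ℝ) - 1) * cW := by positivity
    have e2 : ((b : ℝ) - 1) * cW * 1 ≤ ((b : ℝ) - 1) * cW * Kn ^ (d + 1) :=
      mul_le_mul_of_nonneg_left hKp e1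
    nlinarith
  have h17 : a * (3 ^ (d + 2) * Kn ^ (d + 1) + c' * (3 ^ (d + 1) + 1) * Kn ^ (d + 1) +
      ((b : ℝ) - 1) * cW * C * (1 + ℓ) * Kn ^ (d + 1) + ((b : ℝ) - 1) * cW * Kn ^ (d + 1)) ≤
      a * (Ct * (1 + ℓ) * Kn ^ (d + 1)) := by
    apply mul_le_mul_of_nonneg_left _ (by linarith)
    have e1 : Ct * (1 + ℓ) * Kn ^ (d + 1) = (3 ^ (d + 2) * Kn ^ (d + 1) +
      c' * (3 ^ (d + 1) + 1) * Kn ^ (d + 1) + ((b : ℝ) - 1) * cW * Kn ^ (d + 1)) * (1 + ℓ) +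
      ((b : ℝ) - 1) * cW * C * (1 + ℓ) * Kn ^ (d + 1) := by rw [hCt]; ring
    rw [e1]
    have e2 : 0 ≤ 3 ^ (d + 2) * Kn ^ (d + 1) + c' * (3 ^ (d + 1) + 1) * Kn ^ (d + 1) +
      ((b : ℝ) - 1) * cW * Kn ^ (d + 1) := by positivity
    nlinarith
  have h18 : (((b : ℝ) - 1) * cW / (W * a) * n - δ * n - Ct * (1 + ℓ) * Kn ^ (d + 1)) * a ≤
      Kn ^ (d + 2) * a := by
    have e1 : (((b : ℝ) - 1) * cW / (W * a) * n - δ * n - Ct * (1 + ℓ) * Kn ^ (d + 1)) * a =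
      ((b : ℝ) - 1) * (cW * ((n : ℝ) / W)) - δ * a * n - a * (Ct * (1 + ℓ) * Kn ^ (d + 1)) := by
      rw [sub_mul, sub_mul, h13]; ring
    rw [e1]
    linarith
  exact le_of_mul_le_mul_right h18 (by linarith)

end

end Pool.Agent.H820R3.DG
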