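import Pool.Agent.H648R2.S.Thm
import Pool.Agent.H394R2.Ones3

/-!
# Long blocks of zero digits of algebraic numbers
-/

set_option autoImplicit false
set_option linter.unusedSectionVars false

open Finset

namespace Pool.Agent.H820R3.DG

open Pool.Agent.H394R2.Ones

section
variable {b : ℕ} {y : ℝ}

lemma ep_succ (hb : 2 ≤ b) (N : ℕ) : ep b y (N + 1) = b * ep b y N - x b y (N + 1) := by
  unfold ep
  rw [B_succ hb N]
  push_cast
  ring

lemma ep_zeros (hb : 2 ≤ b) (L : ℕ) : ∀ h : ℕ, (∀ k, L < k → k ≤ L + h → x b y k = 0) →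
    ep b y (L + h) = (b : ℝ) ^ h * ep b y L := by
  intro h
  induction h with
  | zero => intro _; simp
  | succ h ih =>
    intro hk
    rw [← add_assoc, ep_succ hb, ih (fun k h1 h2 => hk k h1 (by omega)),
      hk (L + h + 1) (by omega) (by omega), pow_succ]
    push_cast
    ring

lemma ep_small (hb : 2 ≤ b) (L h : ℕ) (hk : ∀ k, L < k → k ≤ L + h → x b y k = 0) :
    (b : ℝ) ^ h * ep b y L < 1 := by
  rw [← ep_zeros hb L h hk]
  exact ep_lt _

lemma ep_step (hb : 2 ≤ b) (N : ℕ) : ep b y (N + 1) ≤ b * ep b y N := by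
  rw [ep_succ hb]
  have : (0 : ℝ) ≤ x b y (N + 1) := Nat.cast_nonneg _
  linarith

lemma ep_steps (hb : 2 ≤ b) (N : ℕ) : ∀ h : ℕ, ep b y (N + h) ≤ (b : ℝ) ^ h * ep b y N := by
  intro h
  induction h with
  | zero => simp
  | succ h ih =>
    have h1 := ep_step (y := y) hb (N + h)
    have hb0 : (0 : ℝ) ≤ b := Nat.cast_nonneg _
    rw [← add_assoc, pow_succ]
    calc ep b y (N + h + 1) ≤ b * ep b y (N + h) := h1
      _ ≤ b * ((b : ℝ) ^ h * ep b y N) := mul_le_mul_of_nonneg_left ih hb0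
      _ = _ := by ring

lemma ep_large (hb : 2 ≤ b) (hy0 : 0 < y) (N h : ℕ) (hx : 1 ≤ x b y (N + h + 1)) :
    1 ≤ (b : ℝ) ^ (h + 1) * ep b y N := by
  have h1 := ep_steps (y := y) hb N h
  have h2 := ep_succ (y := y) hb (N + h)
  have h3 := ep_nonneg (b := b) hy0 (N + h + 1)
  have h4 : (1 : ℝ) ≤ x b y (N + h + 1) := by exact_mod_cast hx
  have hb0 : (0 : ℝ) ≤ b := Nat.cast_nonneg _
  have h5 : (b : ℝ) * ep b y (N + h) ≤ b * ((b : ℝ) ^ h * ep b y N) :=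
    mul_le_mul_of_nonneg_left h1 hb0
  rw [pow_succ]
  linarith

lemma T_ge (hb : 2 ≤ b) (hy0 : 0 < y) (hy1 : y < 1) {m i : ℕ} (hi : i ≤ m)
    (hx : 1 ≤ x b y i) : ep b y (m - i) ≤ T b y m := by
  rw [T_eq hb hy0 hy1]
  have h1 : (x b y i : ℝ) * ep b y (m - i) ≤
      ∑ k ∈ range (m + 1), (x b y k : ℝ) * ep b y (m - k) := by
    refine single_le_sum (f := fun k => (x b y k : ℝ) * ep b y (m - k)) ?_
      (mem_range.mpr (by omega))
    intro k _
    exact mul_nonneg (Nat.cast_nonneg _) (ep_nonneg hy0 _)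
  have h2 : (1 : ℝ) ≤ x b y i := by exact_mod_cast hx
  have h3 := ep_nonneg (b := b) hy0 (m - i)
  have h4 : 0 ≤ y * ep b y m := mul_nonneg hy0.le (ep_nonneg hy0 _)
  nlinarith

/-- Ridout's theorem for denominators that are powers of `b` -/
theorem ridout (hb : 2 ≤ b) (halg : IsAlgebraic ℚ y) (hirr : Irrational y) (δ : ℝ) (hδ : 0 < δ)
    (hδ1 : δ ≤ 1) : ∃ L0 : ℕ, ∀ L : ℕ, L0 ≤ L → ∀ P : ℤ,
      Real.exp (-(δ * (L * Real.log b))) < |y * (b : ℝ) ^ L - P| := by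
  obtain ⟨ε, hε, L0, h⟩ := Pool.Agent.H648R2.S.sep b hb y halg hirr 1 δ hδ
  refine ⟨L0, fun L hL P => ?_⟩
  have hlog : 0 ≤ Real.log (b : ℝ) := Real.log_nonneg (by exact_mod_cast (by omega : 1 ≤ b))
  have h1 := h L hL (fun _ => L) ⟨fun _ => le_rfl, fun _ => ?_, fun i j hij => ?_⟩ (fun _ => 1)
    (fun h0 => by simpa using congrFun h0 0) (fun _ => ?_) P
  · simpa using h1
  · have : (0 : ℝ) ≤ L := Nat.cast_nonneg _
    nlinarith
  · exact absurd (Subsingleton.elim i j) hij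
  · rw [Int.cast_one, abs_one]
    exact Real.one_le_exp (by positivity)

/-- there are no long blocks of zeros -/
theorem gap (hb : 2 ≤ b) (hy0 : 0 < y) (halg : IsAlgebraic ℚ y) (hirr : Irrational y) (δ : ℝ)
    (hδ : 0 < δ) (hδ1 : δ ≤ 1) :
    ∃ L0 : ℕ, ∀ L : ℕ, L0 ≤ L → ∃ k, L < k ∧ (k : ℝ) ≤ L + 1 + δ * L ∧ 1 ≤ x b y k := by
  obtain ⟨L0, h⟩ := ridout hb halg hirr δ hδ hδ1
  refine ⟨L0, fun L hL => ?_⟩
  by_contra hcon
  push Not at hcon
  have hb1 : (1 : ℝ) ≤ b := by exact_mod_cast (by omega : 1 ≤ b)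
  have hb0 : (0 : ℝ) < b := by linarith
  have hLL : (0 : ℝ) ≤ L := Nat.cast_nonneg _
  set g := ⌊1 + δ * L⌋₊ with hg
  have hg1 : (g : ℝ) ≤ 1 + δ * L := Nat.floor_le (by positivity)
  have hg2 : 1 + δ * L < (g : ℝ) + 1 := Nat.lt_floor_add_one _
  have h1 := ep_small (y := y) hb L g (fun k hk1 hk2 => by
    have hk3 : (k : ℝ) ≤ L + g := by exact_mod_cast hk2
    have := hcon k hk1 (by linarith)
    omega)
  have h2 := h L hL (B b y L : ℤ)
  have h3 : y * (b : ℝ) ^ L - ((B b y L : ℤ) : ℝ) = ep b y L := by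
    unfold ep; push_cast; ring
  rw [h3, abs_of_nonneg (ep_nonneg hy0 L)] at h2
  have h4 : Real.exp (-(δ * (L * Real.log b))) = ((b : ℝ) ^ (δ * L))⁻¹ := by
    rw [Real.rpow_def_of_pos hb0, ← Real.exp_neg]
    congr 1; ring
  rw [h4] at h2
  have h5 : (b : ℝ) ^ (δ * L) ≤ (b : ℝ) ^ g := by
    rw [← Real.rpow_natCast]
    exact Real.rpow_le_rpow_of_exponent_le hb1 (by linarith)
  have h6 : 0 < (b : ℝ) ^ (δ * L) := Real.rpow_pos_of_pos hb0 _
  have h7 : 1 < (b : ℝ) ^ (δ * L) * ep b y L := by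
    rw [inv_lt_iff_one_lt_mul₀ h6] at h2
    linarith
  have h8 : (b : ℝ) ^ (δ * L) * ep b y L ≤ (b : ℝ) ^ g * ep b y L :=
    mul_le_mul_of_nonneg_right h5 (ep_nonneg hy0 L)
  linarith

/-- positions with small tail of the square lie near the end of a block of zeros -/
theorem bad_pos (hb : 2 ≤ b) (hy0 : 0 < y) (hy1 : y < 1) (halg : IsAlgebraic ℚ y)
    (hirr : Irrational y) (c : ℝ) (δ : ℝ) (hδ : 0 < δ) (hδ1 : δ ≤ 1 / 4) :
    ∃ M0 a : ℕ, (∃ k, k < M0 ∧ 1 ≤ x b y k) ∧ ∀ m j j' : ℕ, M0 ≤ m → j ≤ m → m < j' →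
      1 ≤ x b y j → 1 ≤ x b y j' → (∀ k, j < k → k < j' → x b y k = 0) →
      T b y m ≤ c * ep b y m → m < j + a ∨ (j' : ℝ) ≤ m + a + δ * ((j' : ℝ) - j) := by
  obtain ⟨L0, hgap⟩ := gap hb hy0 halg hirr δ hδ (by linarith)
  have hb1 : (1 : ℝ) < b := by exact_mod_cast (by omega : 1 < b)
  have hb0 : (0 : ℝ) < b := by linarith
  obtain ⟨c0, hc0⟩ := pow_unbounded_of_one_lt c hb1
  obtain ⟨k0, hk01, hk02, hk03⟩ := hgap (L0 + 2) (by omega)
  refine ⟨k0 + 1, L0 + c0 + 1, ⟨k0, by omega, hk03⟩, ?_⟩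
  intro m j j' hm hjm hmj' hxj hxj' hz hbad
  rcases Nat.lt_or_ge (m - j) L0 with hL | hL
  · left; omega
  right
  obtain ⟨i, hi1, hi2, hi3⟩ := hgap (m - j) hL
  -- j is large
  have hj : L0 + 2 < j := by
    by_contra hcon
    have h1 := hz k0 (by omega) (by omega)
    omega
  obtain ⟨k1, hk11, hk12, hk13⟩ := hgap j (by omega)
  have hk1j : j' ≤ k1 := by
    by_contra hcon
    have h1 := hz k1 hk11 (by omega)
    omega
  have hcast : ((m - j : ℕ) : ℝ) = m - j := by rw [Nat.cast_sub hjm]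
  rw [hcast] at hi2
  have hk1R : (j' : ℝ) ≤ k1 := by exact_mod_cast hk1j
  have hmR : (m : ℝ) + 1 ≤ j' := by exact_mod_cast hmj'
  have hjR : (2 : ℝ) < j := by exact_mod_cast (by omega : 2 < j)
  have hjm' : (j : ℝ) ≤ m := by exact_mod_cast hjm
  have him : i ≤ m := by
    have h1 : (m : ℝ) - j ≤ δ * j := by linarith
    have h2 : δ * ((m : ℝ) - j) ≤ 1 / 4 * (1 / 4 * j) := by
      apply mul_le_mul hδ1 _ (by linarith) (by norm_num)
      nlinarith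
    have h3 : (i : ℝ) ≤ m := by linarith
    exact_mod_cast h3
  have h1 := T_ge hb hy0 hy1 him hi3
  -- lower bound for ep (m - i)
  obtain ⟨h, hh⟩ : ∃ h, m - i + h + 1 = j := ⟨j - (m - i) - 1, by omega⟩
  have h2 := ep_large hb hy0 (m - i) h (by rw [hh]; exact hxj)
  have h3 := ep_small (y := y) hb m (j' - 1 - m) (fun k hk1 hk2 => hz k (by omega) (by omega))
  have hep := ep_pos hb hy0 hirr m
  have h4 : 1 ≤ (b : ℝ) ^ (h + 1) * (c * ep b y m) := by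
    have := mul_le_mul_of_nonneg_left (h1.trans hbad) (by positivity : (0 : ℝ) ≤ (b : ℝ) ^ (h + 1))
    linarith
  have h5 : (b : ℝ) ^ (j' - 1 - m) < (b : ℝ) ^ (c0 + (h + 1)) := by
    have e1 : (b : ℝ) ^ (j' - 1 - m) * ep b y m < (b : ℝ) ^ (c0 + (h + 1)) * ep b y m := by
      calc (b : ℝ) ^ (j' - 1 - m) * ep b y m < 1 := h3
        _ ≤ (b : ℝ) ^ (h + 1) * (c * ep b y m) := h4
        _ ≤ (b : ℝ) ^ (h + 1) * ((b : ℝ) ^ c0 * ep b y m) := by gcongr
        _ = _ := by rw [pow_add]; ring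
    exact lt_of_mul_lt_mul_right e1 hep.le
  have h6 : j' - 1 - m < c0 + (h + 1) := (pow_lt_pow_iff_right₀ hb1).mp h5
  have h7 : j' ≤ m + c0 + (h + 1) := by omega
  have h8 : h + 1 + m = j + i := by omega
  have h7' : (j' : ℝ) ≤ m + c0 + (h + 1) := by exact_mod_cast h7
  have h8' : (h : ℝ) + 1 + m = j + i := by exact_mod_cast h8
  have h9 : δ * ((m : ℝ) - j) ≤ δ * ((j' : ℝ) - j) := mul_le_mul_of_nonneg_left (by linarith) hδ.le
  have h10 : (0 : ℝ) ≤ L0 := Nat.cast_nonneg _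
  push_cast
  linarith

end

end Pool.Agent.H820R3.DG
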