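import Pool.Agent.H820R3.DG.Count
import Pool.Agent.H820R3.DG.Four

/-!
# Digit sums of quadratic irrationals
-/

set_option autoImplicit false
set_option linter.unusedSectionVars false

open Finset

namespace Pool.Agent.H820R3.DG

open Pool.Agent.H394R2.Ones

section
variable {b : ℕ} {y : ℝ}

lemma ep_sum (hb : 2 ≤ b) (hy0 : 0 < y) (hy1 : y < 1) (n : ℕ) :
    ∑ m ∈ range n, ep b y m ≤ K b y n + 1 := by
  have hbR : (2 : ℝ) ≤ b := by exact_mod_cast hb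
  have h1 : ∀ n : ℕ, ((b : ℝ) - 1) * ∑ m ∈ range n, ep b y m + ep b y 0 =
      ep b y n + K b y n := by
    intro n
    induction n with
    | zero => simp [K, x_zero hy0 hy1]
    | succ n ih =>
      have h2 : K b y (n + 1) = K b y n + x b y (n + 1) := by
        unfold K; rw [sum_range_succ]
      rw [sum_range_succ, h2, ep_succ hb]
      push_cast
      linarith
  have h2 := h1 n
  have h3 : 0 ≤ ∑ m ∈ range n, ep b y m := sum_nonneg fun m _ => ep_nonneg hy0 m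
  have h4 := ep_nonneg (b := b) hy0 0
  have h5 := ep_lt (b := b) (y := y) n
  nlinarith

/-- the deficiency at `m` -/
noncomputable def dd (b : ℕ) (y τ B : ℝ) (m : ℕ) : ℝ :=
  B * ep b y m + τ * (x b y m + exc b y m) + τ * (if T b y m ≤ B * ep b y m then 1 else 0) +
    (if m ≤ 0 then τ else 0)

lemma dd_nonneg (hy0 : 0 < y) {τ B : ℝ} (hτ : 0 ≤ τ) (hB : 0 ≤ B) (m : ℕ) :
    0 ≤ dd b y τ B m := by
  unfold dd
  have h1 := ep_nonneg (b := b) hy0 m
  have h2 : (0 : ℝ) ≤ x b y m + exc b y m := by positivity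
  split_ifs <;> positivity

lemma T_lower' (hb : 2 ≤ b) (hy0 : 0 < y) (hy1 : y < 1) (hirr : Irrational y) {A B C : ℤ}
    (hA : 0 < A) (hq : (A : ℝ) * y ^ 2 + B * y + C = 0) (m : ℕ) :
    ((Int.gcd b (2 * A) : ℕ) : ℝ) / A - dd b y (((Int.gcd b (2 * A) : ℕ) : ℝ) / A) |(B : ℝ)| m ≤
      T b y m := by
  have hAR : (1 : ℝ) ≤ A := by exact_mod_cast hA
  set g : ℕ := Int.gcd b (2 * A) with hg
  set τ : ℝ := (g : ℝ) / A with hτ
  have hτ0 : 0 ≤ τ := by positivity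
  have hTpos := T_pos hb hy0 hy1 hirr m
  have hep := ep_nonneg (b := b) hy0 m
  have hB0 : 0 ≤ |(B : ℝ)| := abs_nonneg _
  have hBe : 0 ≤ |(B : ℝ)| * ep b y m := mul_nonneg hB0 hep
  have hx0 : (0 : ℝ) ≤ x b y m + exc b y m := by positivity
  have hxt : 0 ≤ τ * (x b y m + exc b y m) := mul_nonneg hτ0 hx0
  unfold dd
  by_cases hm : m ≤ 0
  · rw [if_pos hm]
    split_ifs <;> linarith
  rw [if_neg hm]
  by_cases hbad : T b y m ≤ |(B : ℝ)| * ep b y m
  · rw [if_pos hbad]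
    linarith
  rw [if_neg hbad]
  by_cases hx : 1 ≤ x b y m + exc b y m
  · have : (1 : ℝ) ≤ x b y m + exc b y m := by exact_mod_cast hx
    nlinarith
  have hx1 : x b y m = 0 := by omega
  have hx2 : exc b y m = 0 := by omega
  have hr : r b y m % 2 = 0 := by
    by_contra hcon
    obtain ⟨h1, h2⟩ := r_parity (b := b) (y := y) m (by omega)
    unfold exc at hx2
    rw [if_pos h1] at hx2
    omega
  -- the integers
  have hZ : ∀ k : ℕ, (A : ℝ) * T b y k + B * ep b y k =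
      ((-C * (b : ℤ) ^ k - A * S b y k - B * Pool.Agent.H394R2.Ones.B b y k : ℤ) : ℝ) := by
    intro k
    unfold T ep
    push_cast
    linear_combination ((b : ℝ) ^ k) * hq
  set Z : ℕ → ℤ := fun k =>
    -C * (b : ℤ) ^ k - A * S b y k - B * Pool.Agent.H394R2.Ones.B b y k with hZdef
  have hrec : Z m = b * Z (m - 1) - A * r b y m - B * x b y m := by
    obtain ⟨k, rfl⟩ : ∃ k, m = k + 1 := ⟨m - 1, by omega⟩
    rw [hZdef]
    simp only [Nat.add_sub_cancel]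
    rw [S_succ hb hy0 hy1, B_succ hb]
    push_cast
    ring
  have hZm : (A : ℝ) * T b y m + B * ep b y m = (Z m : ℝ) := hZ m
  have habs : -|(B : ℝ)| * ep b y m ≤ B * ep b y m :=
    mul_le_mul_of_nonneg_right (neg_abs_le _) hep
  have habs2 : B * ep b y m ≤ |(B : ℝ)| * ep b y m :=
    mul_le_mul_of_nonneg_right (le_abs_self _) hep
  push Not at hbad
  have hZpos : 0 < Z m := by
    have h1 : (0 : ℝ) < Z m := by
      rw [← hZm]
      nlinarith
    exact_mod_cast h1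
  have hdvd : (g : ℤ) ∣ Z m := by
    rw [hrec, hx1]
    have h1 : (g : ℤ) ∣ (b : ℤ) := by rw [hg]; exact Int.gcd_dvd_left _ _
    have h2 : (g : ℤ) ∣ 2 * A := by rw [hg]; exact Int.gcd_dvd_right _ _
    obtain ⟨r', hr'⟩ : ∃ r' : ℕ, r b y m = 2 * r' := ⟨r b y m / 2, by omega⟩
    rw [hr']
    have h3 : (b : ℤ) * Z (m - 1) - A * ((2 * r' : ℕ) : ℤ) - B * ((0 : ℕ) : ℤ) =
        b * Z (m - 1) - 2 * A * r' := by push_cast; ring
    rw [h3]
    exact dvd_sub (Dvd.dvd.mul_right h1 _) (Dvd.dvd.mul_right h2 _)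
  have hZg : (g : ℤ) ≤ Z m := Int.le_of_dvd hZpos hdvd
  have hZgR : (g : ℝ) ≤ Z m := by exact_mod_cast hZg
  rw [hx1, hx2]
  push_cast
  have h1 : (g : ℝ) - |(B : ℝ)| * ep b y m ≤ A * T b y m := by linarith
  have h2 : τ * A = g := by rw [hτ]; field_simp
  have h3 : (τ - |(B : ℝ)| * ep b y m) * A ≤ T b y m * A := by nlinarith
  have h4 := le_of_mul_le_mul_right h3 (by linarith : (0 : ℝ) < A)
  linarith

/-- digit sums of quadratic irrationals in `(0, 1)` -/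
theorem quad_main (hb : 2 ≤ b) (hy0 : 0 < y) (hy1 : y < 1) (hirr : Irrational y) {A B C : ℤ}
    (hA : 0 < A) (hq : (A : ℝ) * y ^ 2 + B * y + C = 0) (ε : ℝ) (hε : 0 < ε) :
    ∃ n0 : ℕ, ∀ n : ℕ, n0 ≤ n →
      (7 * Real.sqrt (((b : ℝ) - 1) * (Int.gcd b (2 * A) : ℕ) / (48 * A)) - ε) * Real.sqrt n ≤
        K b y n := by
  have hbR : (2 : ℝ) ≤ b := by exact_mod_cast hb
  have hAR : (1 : ℝ) ≤ A := by exact_mod_cast hA
  have halg : IsAlgebraic ℚ y := by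
    refine ⟨Polynomial.C (A : ℚ) * Polynomial.X ^ 2 + Polynomial.C (B : ℚ) * Polynomial.X +
      Polynomial.C (C : ℚ), ?_, ?_⟩
    · intro h
      have h1 := congrArg (fun p => Polynomial.coeff p 2) h
      simp only [Polynomial.coeff_add, Polynomial.coeff_C_mul, Polynomial.coeff_X_pow,
        Polynomial.coeff_X, Polynomial.coeff_C, Polynomial.coeff_zero] at h1
      norm_num at h1
      omega
    · simp only [map_add, map_mul, map_pow, Polynomial.aeval_X, Polynomial.aeval_C]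
      simpa using hq
  set g : ℕ := Int.gcd b (2 * A) with hg
  set τ : ℝ := (g : ℝ) / A with hτ
  have hτ0 : 0 ≤ τ := by positivity
  set κ : ℝ := 7 * Real.sqrt (((b : ℝ) - 1) * g / (48 * A)) with hκ
  have hκ0 : 0 ≤ κ := by positivity
  have hκ2 : κ ^ 2 = 49 * ((b : ℝ) - 1) * τ / 48 := by
    rw [hκ, mul_pow, Real.sq_sqrt (by
      apply div_nonneg _ (by linarith)
      apply mul_nonneg (by linarith) (Nat.cast_nonneg _)), hτ]
    field_simp
    ring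
  -- the parameter
  set δ : ℝ := min (1 / 4) (ε / (4 * (κ + 1))) with hδ
  have hδ0 : 0 < δ := by positivity
  have hδ1 : δ ≤ 1 / 4 := min_le_left _ _
  have hδ2 : δ * (4 * (κ + 1)) ≤ ε := by
    rw [← le_div_iff₀ (by positivity)]; exact min_le_right _ _
  obtain ⟨C1, hC10, hC1⟩ := bad_count hb hy0 hy1 halg hirr |(B : ℝ)| δ hδ0 hδ1
  have hB0 : 0 ≤ |(B : ℝ)| := abs_nonneg _
  set C2 : ℝ := |(B : ℝ)| + 2 * τ + τ * C1 + τ with hC2
  have hC20 : 0 ≤ C2 := by positivity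
  set C3 : ℝ := 49 * (2 * ((b : ℝ) - 1) * C2 + (13 * b + 2)) with hC3
  have hC30 : 0 ≤ C3 := by
    have : 0 ≤ (b : ℝ) - 1 := by linarith
    positivity
  set C4 : ℝ := C3 / 48 + 1 with hC4
  have hC40 : 1 ≤ C4 := by rw [hC4]; linarith [div_nonneg hC30 (by norm_num : (0 : ℝ) ≤ 48)]
  obtain ⟨n1, hn1⟩ := exists_nat_ge ((2 * C4 / ε) ^ 2)
  refine ⟨max 3 n1, fun n hn => ?_⟩
  have hn3 : 3 ≤ n := (le_max_left _ _).trans hn
  have hnn1 : n1 ≤ n := (le_max_right _ _).trans hn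
  have hK : (0 : ℝ) ≤ K b y n := Nat.cast_nonneg _
  have hn0 : (0 : ℝ) ≤ n := Nat.cast_nonneg _
  have hD : ∑ m ∈ range n, dd b y τ |(B : ℝ)| m ≤ C2 * (K b y n + 1) + τ * δ * n := by
    unfold dd
    rw [sum_add_distrib, sum_add_distrib, sum_add_distrib, ← mul_sum, ← mul_sum, ← mul_sum,
      sum_add_distrib]
    have h1 := ep_sum (b := b) hb hy0 hy1 n
    have h2 : (∑ m ∈ range n, (x b y m : ℝ)) ≤ K b y n := by
      unfold K
      exact_mod_cast sum_le_sum_of_subset (range_mono (Nat.le_succ n))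
    have h3 : (∑ m ∈ range n, (exc b y m : ℝ)) ≤ K b y n := by
      exact_mod_cast exc_sum b y n
    have h4 : (∑ m ∈ range n, (if T b y m ≤ |(B : ℝ)| * ep b y m then (1 : ℝ) else 0)) ≤
        C1 * (K b y n + 1) + δ * n := by
      have h5 := hC1 n
      rw [card_filter] at h5
      push_cast at h5
      exact h5
    have h5 := few_sum 0 n τ hτ0
    rw [Nat.cast_zero, zero_add, mul_one] at h5
    have h6 := mul_le_mul_of_nonneg_left h1 hB0
    have h7 := mul_le_mul_of_nonneg_left (add_le_add h2 h3) hτ0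
    have h8 := mul_le_mul_of_nonneg_left h4 hτ0
    have h9 : 0 ≤ τ * K b y n := mul_nonneg hτ0 hK
    have e : C2 * ((K b y n : ℝ) + 1) = |(B : ℝ)| * (K b y n + 1) + 2 * (τ * K b y n) + 2 * τ +
        τ * (C1 * (K b y n + 1)) + τ * K b y n + τ := by rw [hC2]; ring
    rw [e]
    linarith
  have hmain := main' hb hy0 hy1 hirr (τ := τ) (n := n)
    (fun m => dd_nonneg hy0 hτ0 hB0 m) (fun m => T_lower' hb hy0 hy1 hirr hA hq m) hD hn3
  have h1 : κ ^ 2 * (1 - 2 * δ) * n ≤ (K b y n + C4) ^ 2 := by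
    have e1 : 48 * (κ ^ 2 * (1 - 2 * δ) * n) ≤ 48 * (K b y n : ℝ) ^ 2 + C3 * (K b y n + 1) := by
      rw [hκ2, hC3]
      linarith
    have e2 : C3 * (K b y n + 1) ≤ 48 * (C4 * (K b y n + 1)) := by
      have : C3 ≤ 48 * C4 := by rw [hC4]; linarith
      nlinarith
    nlinarith
  have h2 : κ * (1 - 2 * δ) * Real.sqrt n ≤ K b y n + C4 := by
    apply le_of_sq_le_sq _ (by linarith)
    have e1 : (κ * (1 - 2 * δ) * Real.sqrt n) ^ 2 = κ ^ 2 * (1 - 2 * δ) ^ 2 * n := by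
      rw [mul_pow, mul_pow, Real.sq_sqrt hn0]
    rw [e1]
    refine le_trans ?_ h1
    apply mul_le_mul_of_nonneg_right _ hn0
    apply mul_le_mul_of_nonneg_left _ (sq_nonneg _)
    nlinarith
  have hs0 := Real.sqrt_nonneg (n : ℝ)
  have h3 : 2 * C4 / ε ≤ Real.sqrt n := by
    apply Real.le_sqrt_of_sq_le
    exact hn1.trans (by exact_mod_cast hnn1)
  rw [div_le_iff₀ hε] at h3
  have h4 : κ * (2 * δ) * Real.sqrt n ≤ ε / 2 * Real.sqrt n := by
    apply mul_le_mul_of_nonneg_right _ hs0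
    nlinarith
  nlinarith

end

/-- digit sums of real quadratic irrationals -/
theorem quad_real {b : ℕ} (hb : 2 ≤ b) {A B C : ℤ} (hA : 0 < A) {ξ : ℝ} (hirr : Irrational ξ)
    (hq : (A : ℝ) * ξ ^ 2 + B * ξ + C = 0) (ε : ℝ) (hε : 0 < ε) :
    ∃ n0 : ℕ, ∀ n : ℕ, n0 ≤ n →
      (7 * Real.sqrt (((b : ℝ) - 1) * (Int.gcd b (2 * A) : ℕ) / (48 * A)) - ε) * Real.sqrt n ≤
        ((∑ k ∈ range n, ⌊ξ * (b : ℝ) ^ (k + 1)⌋ % (b : ℤ) : ℤ) : ℝ) := by
  set y : ℝ := Int.fract ξ with hy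
  have hξ : ξ = ⌊ξ⌋ + y := (Int.floor_add_fract ξ).symm
  have hyirr : Irrational y := by
    have : y = ξ - (⌊ξ⌋ : ℤ) := rfl
    rw [this]
    exact hirr.sub_intCast _
  have hy0 : 0 < y := lt_of_le_of_ne (Int.fract_nonneg ξ) (Ne.symm hyirr.ne_zero)
  have hy1 : y < 1 := Int.fract_lt_one ξ
  have hq' : (A : ℝ) * y ^ 2 + ((B + 2 * A * ⌊ξ⌋ : ℤ) : ℝ) * y +
      ((C + B * ⌊ξ⌋ + A * ⌊ξ⌋ ^ 2 : ℤ) : ℝ) = 0 := by
    have h1 : (A : ℝ) * (⌊ξ⌋ + y) ^ 2 + B * (⌊ξ⌋ + y) + C = 0 := by rw [← hξ]; exact hq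
    push_cast
    linarith
  obtain ⟨n0, hn0⟩ := quad_main hb hy0 hy1 hyirr hA hq' ε hε
  refine ⟨n0, fun n hn => (hn0 n hn).trans (le_of_eq ?_)⟩
  have hdig : ∀ k : ℕ, ⌊ξ * (b : ℝ) ^ (k + 1)⌋ % (b : ℤ) = (x b y (k + 1) : ℤ) := by
    intro k
    have h1 : ξ * (b : ℝ) ^ (k + 1) = ((⌊ξ⌋ * (b : ℤ) ^ (k + 1) : ℤ) : ℝ) +
        y * (b : ℝ) ^ (k + 1) := by
      nth_rewrite 1 [hξ]
      push_cast
      ring
    rw [h1, Int.floor_intCast_add]
    unfold x Pool.Agent.H394R2.Ones.B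
    push_cast
    rw [Int.natCast_floor_eq_floor (by positivity)]
    rw [show ⌊ξ⌋ * (b : ℤ) ^ (k + 1) + ⌊y * (b : ℝ) ^ (k + 1)⌋ =
      ⌊y * (b : ℝ) ^ (k + 1)⌋ + (b : ℤ) * (⌊ξ⌋ * (b : ℤ) ^ k) by ring, Int.add_mul_emod_self_left]
  simp only [hdig]
  unfold K
  rw [sum_range_succ']
  rw [x_zero hy0 hy1, add_zero]
  push_cast
  rfl

end Pool.Agent.H820R3.DG
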